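import Pool.Agent.Lib.MP_3efbeb_nt.DH.Spec

/-!
# MP_3efbeb_nt, DH, module FU: finite unions (helper62)
-/

set_option autoImplicit false

namespace Pool.Agent.Lib.MP_3efbeb_nt.DH

open Combinatorics

namespace FU

/-- the union of the sets with index in `I` -/
def T {ι : Type} {m : ℕ} (f : ι → Option (Fin m)) (I : Set (Fin m)) : Set ι := {j | ∃ i ∈ I, f j = some i}

/-- the colour depends only on the least index -/
theorem least (κ : Type) [Finite κ] (m : ℕ) : ∃ (ι : Type) (_ : Finite ι), ∀ c : Set ι → κ,
    ∃ f : ι → Option (Fin m), (∀ i, ∃ j, f j = some i) ∧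
      ∀ (I I' : Set (Fin m)) (i : Fin m), IsLeast I i → IsLeast I' i → c (T f I) = c (T f I') := by
  induction m with
  | zero => exact ⟨Empty, inferInstance, fun c => ⟨fun _ => none, fun i => i.elim0, fun _ _ i => i.elim0⟩⟩
  | succ m ih =>
    obtain ⟨ι', hfin, H⟩ := ih
    obtain ⟨L, hL⟩ := Subspace.exists_mono_in_high_dimension_fin Bool κ ι'
    refine ⟨Option (Fin L), inferInstance, fun c => ?_⟩
    obtain ⟨l, col, hl⟩ := hL fun x => c {j | j = none ∨ ∃ i, j = some i ∧ x i = true}
    obtain ⟨f', hf', hc'⟩ := H fun J => c {j | ∃ i, j = some i ∧ ∃ r ∈ J, l.idxFun i = Sum.inr r}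
    let f : Option (Fin L) → Option (Fin (m + 1)) := fun j =>
      j.elim (some 0) fun i => (l.idxFun i).elim (fun b => if b then some 0 else none) fun r => (f' r).map Fin.succ
    have fnone : f none = some 0 := rfl
    have finl : ∀ i b, l.idxFun i = Sum.inl b → f (some i) = if b then some 0 else none := by
      intro i b h
      simp only [f, Option.elim_some, h, Sum.elim_inl]
    have finr : ∀ i r, l.idxFun i = Sum.inr r → f (some i) = (f' r).map Fin.succ := by
      intro i r h
      simp only [f, Option.elim_some, h, Sum.elim_inr]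
    refine ⟨f, ?_, ?_⟩
    · intro i
      refine Fin.cases ⟨none, fnone⟩ (fun i => ?_) i
      obtain ⟨r, hr⟩ := hf' i
      obtain ⟨j, hj⟩ := l.proper r
      exact ⟨some j, by rw [finr j r hj, hr]; rfl⟩
    · -- the least index is `0`
      have h0 : ∀ I : Set (Fin (m + 1)), 0 ∈ I → c (T f I) = col := by
        intro I hI
        classical
        rw [← hl fun r => decide (∃ i, f' r = some i ∧ i.succ ∈ I)]
        congr 1
        ext j
        rcases j with _ | j
        · simp only [T, Set.mem_setOf_eq, true_or, iff_true]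
          exact ⟨0, hI, fnone⟩
        · simp only [T, Set.mem_setOf_eq, reduceCtorEq, Option.some.injEq, false_or, exists_eq_left']
          rcases h : l.idxFun j with b | r
          · rw [finl j b h, Subspace.apply_inl h]
            rcases b with _ | _
            · simp
            · simp only [if_true, Option.some.injEq, iff_true]
              exact ⟨0, hI, rfl⟩
          · rw [finr j r h, Subspace.apply_inr h]
            simp only [decide_eq_true_eq, Option.map_eq_some_iff]
            constructor
            · rintro ⟨i, hi, a, ha, rfl⟩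
              exact ⟨a, ha, hi⟩
            · rintro ⟨i, hi, hI⟩
              exact ⟨i.succ, hI, i, hi, rfl⟩
      have h1 : ∀ I : Set (Fin (m + 1)), 0 ∉ I →
          T f I = {j | ∃ i, j = some i ∧ ∃ r ∈ T f' (Fin.succ ⁻¹' I), l.idxFun i = Sum.inr r} := by
        intro I hI
        ext j
        rcases j with _ | j
        · simp only [T, Set.mem_setOf_eq, reduceCtorEq, false_and, exists_false, iff_false]
          rintro ⟨i, hi, h⟩
          rw [fnone] at h
          exact hI ((Option.some.inj h).symm ▸ hi)
        · simp only [T, Set.mem_setOf_eq, Option.some.injEq, exists_eq_left', Set.mem_preimage]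
          rcases h : l.idxFun j with b | r
          · rw [finl j b h]
            simp only [reduceCtorEq, and_false, exists_false, iff_false]
            rintro ⟨i, hi, h⟩
            rcases b with _ | _
            · simp at h
            · simp only [if_true, Option.some.injEq] at h
              exact hI (h ▸ hi)
          · rw [finr j r h]
            simp only [Sum.inr.injEq, exists_eq_right', Option.map_eq_some_iff]
            constructor
            · rintro ⟨i, hi, a, ha, rfl⟩
              exact ⟨a, hi, ha⟩
            · rintro ⟨i, hi, ha⟩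
              exact ⟨i.succ, hi, i, ha, rfl⟩
      intro I I' i hi hi'
      rcases Fin.eq_zero_or_eq_succ i with rfl | ⟨i, rfl⟩
      · rw [h0 I hi.1, h0 I' hi'.1]
      · have hz : ∀ J : Set (Fin (m + 1)), IsLeast J i.succ → 0 ∉ J ∧ IsLeast (Fin.succ ⁻¹' J) i := by
          intro J hJ
          refine ⟨fun h => ?_, hJ.1, fun a ha => ?_⟩
          · exact absurd (hJ.2 h) (by simp)
          · exact Fin.succ_le_succ_iff.1 (hJ.2 ha)
        rw [h1 I (hz I hi).1, h1 I' (hz I' hi').1]
        exact hc' _ _ i (hz I hi).2 (hz I' hi').2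

end FU

/-- finite unions -/
theorem specFU : SpecFU := by
  intro m κ _
  obtain ⟨ι, _, H⟩ := FU.least κ (Nat.card κ * m + 1)
  let e := Finite.equivFin ι
  refine ⟨Nat.card ι, fun c => ?_⟩
  obtain ⟨f, hf, hc⟩ := H fun S => c (e.symm ⁻¹' S)
  have _ := Fintype.ofFinite κ
  classical
  obtain ⟨col, hcol⟩ := Fintype.exists_lt_card_fiber_of_mul_lt_card
    (f := fun i : Fin (Nat.card κ * m + 1) => c (e.symm ⁻¹' (FU.T f {i}))) (n := m)
    (by rw [Fintype.card_fin, Nat.card_eq_fintype_card]; exact Nat.lt_succ_self _)
  obtain ⟨g⟩ : Nonempty (Fin m ↪ {x : Fin (Nat.card κ * m + 1) // c (e.symm ⁻¹' (FU.T f {x})) = col}) := by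
    refine Function.Embedding.nonempty_of_card_le ?_
    rw [Fintype.card_fin, Fintype.card_subtype]
    exact hcol.le
  let g' : Fin m → Fin (Nat.card κ * m + 1) := fun i => (g i).1
  have hg' : Function.Injective g' := fun a b h => g.injective (Subtype.ext h)
  let f2 : Fin (Nat.card ι) → Option (Fin m) := fun j =>
    if h : ∃ i, f (e.symm j) = some (g' i) then some h.choose else none
  have hf2 : ∀ j i, f2 j = some i ↔ f (e.symm j) = some (g' i) := by
    intro j i
    by_cases h : ∃ i, f (e.symm j) = some (g' i)
    · simp only [f2, dif_pos h, Option.some.injEq]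
      have hs := h.choose_spec
      constructor
      · rintro rfl
        exact hs
      · intro h'
        exact hg' (Option.some.inj (hs.symm.trans h'))
    · simp only [f2, dif_neg h, reduceCtorEq, false_iff]
      exact fun h' => h ⟨i, h'⟩
  have key : ∀ I : Set (Fin m), I.Nonempty → c {j | ∃ i ∈ I, f2 j = some i} = col := by
    intro I hI
    have h1 : {j | ∃ i ∈ I, f2 j = some i} = e.symm ⁻¹' (FU.T f (g' '' I)) := by
      ext j
      simp only [hf2, FU.T, Set.mem_setOf_eq, Set.mem_preimage, Set.mem_image, exists_exists_and_eq_and]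
    obtain ⟨a, ha⟩ : ∃ a, IsLeast (g' '' I) a := by
      have hne : (g' '' I).Nonempty := hI.image _
      obtain ⟨a, ha, hmin⟩ := Set.exists_min_image (g' '' I) id (Set.toFinite _) hne
      exact ⟨a, ha, fun b hb => hmin b hb⟩
    obtain ⟨i, -, hi⟩ := ha.1
    rw [h1]
    refine (hc (g' '' I) {a} a ha isLeast_singleton).trans ?_
    rw [← hi]
    exact (g i).2
  refine ⟨f2, fun i => ?_, fun I I' hI hI' => (key I hI).trans (key I' hI').symm⟩
  obtain ⟨j, hj⟩ := hf (g' i)
  exact ⟨e j, (hf2 _ _).2 (by rw [Equiv.symm_apply_apply, hj])⟩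

end Pool.Agent.Lib.MP_3efbeb_nt.DH
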