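import Pool.Agent.Lib.MP_3efbeb_nt.DH.Base

/-!
# MP_3efbeb_nt, DH: GOOD from GR (helper44)
-/

set_option autoImplicit false

namespace Pool.Agent.Lib.MP_3efbeb_nt.DH

open Combinatorics

noncomputable section

/-- the line over `Fin k` whose variable places are the places of the last letter -/
def LY {k m : ℕ} (y : Fin m → Fin (k + 1)) (h : ∃ j, y j = Fin.last k) : Line (Fin k) (Fin m) where
  idxFun j := if hj : y j = Fin.last k then none else some ((y j).castPred hj)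
  proper := by
    obtain ⟨j, hj⟩ := h
    exact ⟨j, by simp [hj]⟩

theorem LY_apply {k m : ℕ} (y : Fin m → Fin (k + 1)) (h : ∃ j, y j = Fin.last k) (i : Fin k) :
    Fin.castSucc ∘ (LY y h i) = rep i y := by
  funext j
  show Fin.castSucc (((LY y h).idxFun j).getD i) = if y j = Fin.last k then i.castSucc else y j
  by_cases hj : y j = Fin.last k
  · simp [LY, hj]
  · simp [LY, hj]

/-- extension by `0` -/
def exZ {k m0 : ℕ} (hk : 1 ≤ k) (m : ℕ) (x : Fin m0 → Fin k) : Fin m → Fin k :=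
  fun j => if h : j.1 < m0 then x ⟨j.1, h⟩ else ⟨0, hk⟩

/-- extension of a line by `0` -/
def exL {k m0 : ℕ} (hk : 1 ≤ k) (m : ℕ) (hm : m0 ≤ m) (l : Line (Fin k) (Fin m0)) : Line (Fin k) (Fin m) where
  idxFun j := if h : j.1 < m0 then l.idxFun ⟨j.1, h⟩ else some ⟨0, hk⟩
  proper := by
    obtain ⟨j, hj⟩ := l.proper
    exact ⟨⟨j.1, by omega⟩, by simp [hj]⟩

theorem exL_apply {k m0 : ℕ} (hk : 1 ≤ k) (m : ℕ) (hm : m0 ≤ m) (l : Line (Fin k) (Fin m0)) (a : Fin k) :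
    exL hk m hm l a = exZ hk m (l a) := by
  funext j
  show ((exL hk m hm l).idxFun j).getD a = _
  unfold exZ exL
  by_cases h : j.1 < m0
  · simp only [h, dif_pos]
    rfl
  · simp only [h, dif_neg, not_false_eq_true]
    rfl

theorem specGOOD (hGR : SpecGR) : SpecGOOD := by
  classical
  intro k δ hk hD hδ
  obtain ⟨m0, hm0⟩ := hD (δ / 2) (by linarith)
  have hkp : (0 : ℝ) < ((k : ℝ) + 1) ^ m0 := by positivity
  refine ⟨min 1 ((δ / 2) / ((k : ℝ) + 1) ^ m0), m0, ?_, min_le_left _ _, fun m hm => ?_⟩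
  · apply lt_min one_pos
    positivity
  obtain ⟨M, hM⟩ := hGR k m Prop hk
  refine ⟨M, fun ι _ A hA => ?_⟩
  obtain ⟨U0, hU0⟩ := hM (fun l => min 1 ((δ / 2) / ((k : ℝ) + 1) ^ m0) ≤
    dn {w : ι → Fin (k + 1) | ∀ a : Fin k, Sum.elim (Fin.castSucc ∘ l a) w ∈ A})
  set W : Set (ι → Fin (k + 1)) :=
    {w | δ / 2 ≤ dn {x : Fin m0 → Fin k | Sum.elim (Fin.castSucc ∘ U0 (exZ hk m x)) w ∈ A}} with hW
  have h1 : δ ≤ av (fun w : ι → Fin (k + 1) =>
      dn {x : Fin m0 → Fin k | Sum.elim (Fin.castSucc ∘ U0 (exZ hk m x)) w ∈ A}) := by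
    rw [← av_swap]
    apply const_le_av hk
    intro x
    exact hA _
  have h2 : δ / 2 ≤ dn W := markov (by omega) hδ.le h1 (fun w => dn_le_one _)
  have h3 : ∀ w ∈ W, ∃ l : Line (Fin k) (Fin m0), ∀ a,
      l a ∈ {x : Fin m0 → Fin k | Sum.elim (Fin.castSucc ∘ U0 (exZ hk m x)) w ∈ A} :=
    fun w hw => hm0 (Fin m0) (by simp) _ hw
  have hne : W.Nonempty := by
    rw [Set.nonempty_iff_ne_empty]
    intro h
    rw [h, dn_empty] at h2
    linarith
  obtain ⟨w0, hw0⟩ := hne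
  obtain ⟨l0, _⟩ := h3 w0 hw0
  have : Nonempty (Line (Fin k) (Fin m0)) := ⟨l0⟩
  choose! g hg using h3
  obtain ⟨v, hv⟩ := pigeon W g
  have h4 : dn {w | w ∈ W ∧ g w = v} ≤
      dn {w : ι → Fin (k + 1) | ∀ a : Fin k, Sum.elim (Fin.castSucc ∘ LC U0 (exL hk m hm v) a) w ∈ A} := by
    apply dn_mono
    rintro w ⟨hw, rfl⟩ a
    rw [LC_apply, exL_apply]
    exact hg w hw a
  have h5 : (Nat.card (Line (Fin k) (Fin m0)) : ℝ) ≤ ((k : ℝ) + 1) ^ m0 := by
    exact_mod_cast card_lines k m0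
  have h6 : (δ / 2) / ((k : ℝ) + 1) ^ m0 ≤ dn {w | w ∈ W ∧ g w = v} := by
    rw [div_le_iff₀ hkp, mul_comm]
    refine h2.trans (hv.trans ?_)
    exact mul_le_mul_of_nonneg_right h5 (dn_nonneg _)
  have h7 : min 1 ((δ / 2) / ((k : ℝ) + 1) ^ m0) ≤
      dn {w : ι → Fin (k + 1) | ∀ a : Fin k, Sum.elim (Fin.castSucc ∘ LC U0 (exL hk m hm v) a) w ∈ A} :=
    (min_le_right _ _).trans (h6.trans h4)
  refine ⟨SMp U0, fun y hy => ?_⟩
  have h8 := (hU0 (LY y hy) (exL hk m hm v)).symm ▸ h7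
  refine h8.trans (le_of_eq ?_)
  congr 1
  ext w
  simp only [Set.mem_setOf_eq]
  refine forall_congr' fun i => ?_
  rw [LC_apply, ← LY_apply y hy i, SMp_apply]

end

end Pool.Agent.Lib.MP_3efbeb_nt.DH
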