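import Pool.Agent.Lib.MP_3efbeb_nt.DH.Spec

/-!
# MP_3efbeb_nt, DH, module GR: lines monochromatic in a subspace (helper62)
-/

set_option autoImplicit false

namespace Pool.Agent.Lib.MP_3efbeb_nt.DH

open Combinatorics

/-- Graham-Rothschild for lines, from G and FU -/
theorem specGR (hG : SpecG) (hFU : SpecFU) : SpecGR := by
  intro k m κ _ hk
  obtain ⟨R, hR⟩ := hFU m (Option κ)
  obtain ⟨M, hM⟩ := hG k R (Option κ) hk
  refine ⟨M, fun c => ?_⟩
  classical
  let c' : (Fin M → Option (Fin k)) → Option κ := fun w => if h : ∃ i, w i = none then some (c ⟨w, h⟩) else none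
  obtain ⟨U, hU⟩ := hM c'
  let z : Fin k := ⟨0, hk⟩
  let yy : Set (Fin R) → Fin R → Option (Fin k) := fun T j => if j ∈ T then none else some z
  obtain ⟨f, hf, hc⟩ := hR fun T => c' (ap U (yy T))
  let V : Subspace (Fin m) (Fin k) (Fin R) :=
    ⟨fun j => (f j).elim (Sum.inl z) Sum.inr, fun e => by
      obtain ⟨j, hj⟩ := hf e
      exact ⟨j, by rw [hj]; rfl⟩⟩
  refine ⟨SC U V, fun l l' => ?_⟩
  -- the colour of `LC (SC U V) l` is the colour of the union of the sets `T_i`, `i` a variable place of `l`
  have key : ∀ l : Line (Fin k) (Fin m), some (c (LC (SC U V) l)) =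
      c' (ap U (yy {j | ∃ i ∈ {i | l.idxFun i = none}, f j = some i})) := by
    intro l
    have h1 : some (c (LC (SC U V) l)) = c' (LC (SC U V) l).idxFun := by
      simp only [c']
      rw [dif_pos (LC (SC U V) l).proper]
    have h2 : (LC (SC U V) l).idxFun = ap U fun j => (V.idxFun j).elim some l.idxFun := by
      funext i
      simp only [LC, SC, ap]
      rcases U.idxFun i with a | j
      · rfl
      · rfl
    rw [h1, h2]
    apply hU
    intro j
    simp only [V, yy, Set.mem_setOf_eq]
    rcases h : f j with _ | i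
    · simp
    · simp only [Option.elim_some, Sum.elim_inr, Option.some.injEq]
      constructor
      · intro h'
        rw [if_pos ⟨i, h', rfl⟩]
      · intro h'
        by_contra hne
        rw [if_neg] at h'
        · exact absurd h' (by simp)
        · rintro ⟨i', hi', rfl⟩
          exact hne hi'
  have h3 : some (c (LC (SC U V) l)) = some (c (LC (SC U V) l')) := by
    rw [key l, key l']
    exact hc _ _ l.proper l'.proper
  exact Option.some.inj h3

end Pool.Agent.Lib.MP_3efbeb_nt.DH
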