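import Pool.Agent.Lib.MP_3efbeb_nt.DH.Base

/-!
# MP_3efbeb_nt, DH, module INS (helper24): dense insensitive sets contain subspaces
-/

set_option autoImplicit false

namespace Pool.Agent.Lib.MP_3efbeb_nt.DH

open Combinatorics Filter Topology

noncomputable section

namespace INSm

variable {k : ℕ} {ι : Type}

/-- the places where the letter is not the last one -/
def sup (x : ι → Fin (k + 1)) : Set ι := {j | x j ≠ Fin.last k}

open scoped Classical in
/-- `y` on `F`, the last letter off `F` -/
def ex (F : Set ι) (y : F → Fin k) : ι → Fin (k + 1) :=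
  fun j => if h : j ∈ F then (y ⟨j, h⟩).castSucc else Fin.last k

lemma sup_ex (F : Set ι) (y : F → Fin k) : sup (ex F y) = F := by
  ext j
  show ex F y j ≠ Fin.last k ↔ j ∈ F
  unfold ex
  by_cases h : j ∈ F
  · rw [dif_pos h]
    exact ⟨fun _ => h, fun _ => Fin.castSucc_ne_last _⟩
  · rw [dif_neg h]
    exact ⟨fun h' => absurd rfl h', fun h' => absurd h' h⟩

lemma ex_inj (F : Set ι) : Function.Injective (ex (k := k) F) := by
  intro y y' h
  ext j
  have h1 := congrFun h j.1
  unfold ex at h1
  rw [dif_pos j.2, dif_pos j.2] at h1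
  have h2 := congrArg Fin.val h1
  simpa using h2

lemma exists_ex (x : ι → Fin (k + 1)) : ∃ y, ex (sup x) y = x := by
  refine ⟨fun j => (x j.1).castPred j.2, ?_⟩
  funext j
  unfold ex
  by_cases h : j ∈ sup x
  · rw [dif_pos h]
    exact Fin.castSucc_castPred _ _
  · rw [dif_neg h]
    have h1 : ¬ (x j ≠ Fin.last k) := h
    push Not at h1
    exact h1.symm

lemma fiber (D : Set (ι → Fin (k + 1))) (F : Set ι) :
    {x | x ∈ D ∧ sup x = F} = ex F '' {y | ex F y ∈ D} := by
  ext x
  constructor
  · rintro ⟨hx, rfl⟩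
    obtain ⟨y, hy⟩ := exists_ex x
    exact ⟨y, by show ex (sup x) y ∈ D; rw [hy]; exact hx, hy⟩
  · rintro ⟨y, hy, rfl⟩
    exact ⟨hy, sup_ex F y⟩

lemma fiber_ncard (D : Set (ι → Fin (k + 1))) (F : Set ι) :
    {x | x ∈ D ∧ sup x = F}.ncard = {y : F → Fin k | ex F y ∈ D}.ncard := by
  rw [fiber, Set.ncard_image_of_injective _ (ex_inj F)]

open scoped Classical in
/-- few words have few letters different from the last one -/
lemma few [Finite ι] (N' : ℕ) :
    {x : ι → Fin (k + 1) | Nat.card (sup x) < N'}.ncard ≤ (Nat.card ι * k + 1) ^ N' := by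
  let Φ : (Fin N' → Option (ι × Fin k)) → (ι → Fin (k + 1)) := fun s j =>
    if h : ∃ a : Fin k, ∃ t, s t = some (j, a) then (Classical.choose h).castSucc else Fin.last k
  have h1 : {x : ι → Fin (k + 1) | Nat.card (sup x) < N'} ⊆ Φ '' Set.univ := by
    intro x hx
    have hx' : Nat.card (sup x) < N' := hx
    have : Finite (sup x) := inferInstance
    have e1 : (sup x) ≃ Fin (Nat.card (sup x)) := Finite.equivFin _
    let e : sup x → Fin N' := fun j => Fin.castLE hx'.le (e1 j)
    have he : Function.Injective e := fun a b hab => e1.injective (Fin.castLE_injective _ hab)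
    let s : Fin N' → Option (ι × Fin k) := fun t =>
      if h : ∃ j : sup x, e j = t then
        some ((Classical.choose h).1, (x (Classical.choose h).1).castPred (Classical.choose h).2)
      else none
    have hs : ∀ j : sup x, s (e j) = some (j.1, (x j.1).castPred j.2) := by
      intro j
      have h : ∃ j' : sup x, e j' = e j := ⟨j, rfl⟩
      have h2 : Classical.choose h = j := he (Classical.choose_spec h)
      show (if h : ∃ j' : sup x, e j' = e j then _ else _) = _
      rw [dif_pos h]
      simp only [h2]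
    refine ⟨s, Set.mem_univ _, ?_⟩
    funext j
    show (if h : ∃ a : Fin k, ∃ t, s t = some (j, a) then (Classical.choose h).castSucc else Fin.last k) = x j
    by_cases hj : j ∈ sup x
    · have h : ∃ a : Fin k, ∃ t, s t = some (j, a) := ⟨(x j).castPred hj, e ⟨j, hj⟩, hs ⟨j, hj⟩⟩
      rw [dif_pos h]
      obtain ⟨t, ht⟩ := Classical.choose_spec h
      have h3 : ∃ j' : sup x, e j' = t := by
        by_contra hcon
        have : s t = none := by
          show (if h : ∃ j' : sup x, e j' = t then _ else _) = _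
          rw [dif_neg hcon]
        rw [this] at ht
        exact absurd ht (by simp)
      obtain ⟨j', rfl⟩ := h3
      rw [hs j'] at ht
      have h4 := Option.some_injective _ ht
      have h5 : j'.1 = j := congrArg Prod.fst h4
      have h6 : (x j'.1).castPred j'.2 = Classical.choose h := congrArg Prod.snd h4
      rw [← h6, Fin.castSucc_castPred, h5]
    · have h : ¬ ∃ a : Fin k, ∃ t, s t = some (j, a) := by
        rintro ⟨a, t, ht⟩
        by_cases h3 : ∃ j' : sup x, e j' = t
        · obtain ⟨j', rfl⟩ := h3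
          rw [hs j'] at ht
          have h5 : j'.1 = j := congrArg Prod.fst (Option.some_injective _ ht)
          exact hj (h5 ▸ j'.2)
        · have : s t = none := by
            show (if h : ∃ j' : sup x, e j' = t then _ else _) = _
            rw [dif_neg h3]
          rw [this] at ht
          exact absurd ht (by simp)
      rw [dif_neg h]
      have h1 : ¬ (x j ≠ Fin.last k) := hj
      push Not at h1
      exact h1.symm
  calc {x : ι → Fin (k + 1) | Nat.card (sup x) < N'}.ncard ≤ (Φ '' Set.univ).ncard :=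
        Set.ncard_le_ncard h1 (Set.toFinite _)
    _ ≤ (Set.univ : Set (Fin N' → Option (ι × Fin k))).ncard := Set.ncard_image_le (Set.toFinite _)
    _ = (Nat.card ι * k + 1) ^ N' := by
        rw [Set.ncard_univ, Nat.card_fun, Finite.card_option, Nat.card_prod]
        simp

lemma asym (k N' : ℕ) (hk : 1 ≤ k) (β : ℝ) (hβ : 0 < β) :
    ∃ N : ℕ, ∀ n : ℕ, N ≤ n → (((n * k + 1) ^ N' : ℕ) : ℝ) < β / 2 * ((k + 1 : ℕ) : ℝ) ^ n := by
  have hk1 : (1 : ℝ) < ((k + 1 : ℕ) : ℝ) := by
    have : (1 : ℝ) ≤ k := by exact_mod_cast hk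
    push_cast
    linarith
  have h1 := tendsto_pow_const_div_const_pow_of_one_lt N' hk1
  have hpos : (0 : ℝ) < β / 2 / ((k + 1 : ℕ) : ℝ) ^ N' := by positivity
  obtain ⟨N, hN⟩ := eventually_atTop.1 (h1.eventually (gt_mem_nhds hpos))
  refine ⟨max N 1, fun n hn => ?_⟩
  have h2 := hN n (le_trans (le_max_left _ _) hn)
  have hn1 : 1 ≤ n := le_trans (le_max_right _ _) hn
  have h3 : (n * k + 1) ≤ n * (k + 1) := by nlinarith
  have h4 : (((n * k + 1) ^ N' : ℕ) : ℝ) ≤ ((n : ℝ) * ((k + 1 : ℕ) : ℝ)) ^ N' := by
    have : (n * k + 1) ^ N' ≤ (n * (k + 1)) ^ N' := Nat.pow_le_pow_left h3 _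
    exact_mod_cast this
  refine lt_of_le_of_lt h4 ?_
  rw [mul_pow]
  have hp : (0 : ℝ) < ((k + 1 : ℕ) : ℝ) ^ n := by positivity
  have hp' : (0 : ℝ) < ((k + 1 : ℕ) : ℝ) ^ N' := by positivity
  rw [div_lt_div_iff₀ hp hp'] at h2
  exact h2

open scoped Classical in
/-- a subspace over `F` with letters in `Fin k`, extended by the last letter off `F` -/
def lift {m : ℕ} (F : Set ι) (V : Subspace (Fin m) (Fin k) F) : Subspace (Fin m) (Fin (k + 1)) ι where
  idxFun j := if h : j ∈ F then (V.idxFun ⟨j, h⟩).map Fin.castSucc id else Sum.inl (Fin.last k)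
  proper e := by
    obtain ⟨j, hj⟩ := V.proper e
    refine ⟨j.1, ?_⟩
    rw [dif_pos j.2]
    show (V.idxFun j).map Fin.castSucc id = Sum.inr e
    rw [hj]
    rfl

lemma lift_rep {m : ℕ} (i : Fin k) (F : Set ι) (V : Subspace (Fin m) (Fin k) F) (x : Fin m → Fin (k + 1)) :
    ∃ y : Fin m → Fin k, rep i (lift F V x) = rep i (ex F (V y)) := by
  classical
  refine ⟨fun e => if h : x e = Fin.last k then i else (x e).castPred h, ?_⟩
  funext j
  unfold rep ex
  rw [Subspace.apply_def]
  by_cases h : j ∈ F
  · have h1 : (lift F V).idxFun j = (V.idxFun ⟨j, h⟩).map Fin.castSucc id := dif_pos h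
    rw [h1, dif_pos h, if_neg (Fin.castSucc_ne_last _), Subspace.apply_def]
    cases hv : V.idxFun ⟨j, h⟩ with
    | inl a =>
      show (if (Fin.castSucc a) = Fin.last k then i.castSucc else Fin.castSucc a) = Fin.castSucc a
      rw [if_neg (Fin.castSucc_ne_last _)]
    | inr e =>
      show (if x e = Fin.last k then i.castSucc else x e) =
        Fin.castSucc (if h : x e = Fin.last k then i else (x e).castPred h)
      by_cases hx : x e = Fin.last k
      · rw [if_pos hx, dif_pos hx]
      · rw [if_neg hx, dif_neg hx, Fin.castSucc_castPred]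
  · have h1 : (lift F V).idxFun j = Sum.inl (Fin.last k) := dif_neg h
    rw [h1, dif_neg h]
    rfl

end INSm

open INSm in
/-- INS. -/
theorem specINS (hMD : SpecMD) : SpecINS := by
  intro k m hk hD β hβ
  obtain ⟨N', hN'⟩ := hMD k m hk hD (β / 2) (by linarith)
  obtain ⟨N, hN⟩ := asym k N' hk β hβ
  refine ⟨N, fun ι _ hcard i D hins hβD => ?_⟩
  classical
  -- the fibre
  have key : ∃ F : Set ι, N' ≤ Nat.card F ∧ β / 2 ≤ dn {y : F → Fin k | ex F y ∈ D} := by
    by_contra hcon
    push Not at hcon
    have hpow : (0 : ℝ) < ((k + 1 : ℕ) : ℝ) ^ Nat.card ι := by positivity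
    let S : Set (ι → Fin (k + 1)) := {x | Nat.card (sup x) < N'}
    have hS : dn S < β / 2 := by
      unfold dn
      rw [div_lt_iff₀ hpow]
      refine lt_of_le_of_lt ?_ (hN _ hcard)
      exact_mod_cast few N'
    have := Fintype.ofFinite (Set ι)
    have hU1 : (⋃ F : Set ι, {x : ι → Fin (k + 1) | sup x = F}) = Set.univ := by
      ext x; simp
    have hU2 : (⋃ F : Set ι, {x : ι → Fin (k + 1) | x ∈ D \ S ∧ sup x = F}) = D \ S := by
      ext x; simp
    have hd1 := dn_iUnion (fun F : Set ι => {x : ι → Fin (k + 1) | sup x = F}) (by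
      intro F F' hne
      rw [Set.disjoint_left]
      intro x hx hx'
      exact hne (hx.symm.trans hx'))
    have hd2 := dn_iUnion (fun F : Set ι => {x : ι → Fin (k + 1) | x ∈ D \ S ∧ sup x = F}) (by
      intro F F' hne
      rw [Set.disjoint_left]
      intro x hx hx'
      exact hne (hx.2.symm.trans hx'.2))
    rw [hU1, dn_univ (Nat.succ_le_succ (Nat.zero_le k))] at hd1
    rw [hU2] at hd2
    have hterm : ∀ F : Set ι, dn {x : ι → Fin (k + 1) | x ∈ D \ S ∧ sup x = F} ≤
        β / 2 * dn {x : ι → Fin (k + 1) | sup x = F} := by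
      intro F
      by_cases hF : N' ≤ Nat.card F
      · have h1 := (hcon F hF).le
        have h2 : dn {x : ι → Fin (k + 1) | x ∈ D \ S ∧ sup x = F} ≤
            dn {x : ι → Fin (k + 1) | x ∈ D ∧ sup x = F} := dn_mono fun x hx => ⟨hx.1.1, hx.2⟩
        refine h2.trans ?_
        have h3 : {x : ι → Fin (k + 1) | sup x = F}.ncard = k ^ Nat.card F := by
          have h4 := fiber_ncard (k := k) Set.univ F
          have h5 : {y : F → Fin k | ex F y ∈ (Set.univ : Set (ι → Fin (k + 1)))} = Set.univ := by
            ext y; simp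
          rw [h5, Set.ncard_univ, card_cube] at h4
          rw [← h4]
          congr 1
          ext x; simp
        unfold dn
        rw [fiber_ncard, h3, ← mul_div_assoc]
        apply div_le_div_of_nonneg_right _ hpow.le
        have h6 := dn_mul {y : F → Fin k | ex F y ∈ D}
        rw [← h6]
        push_cast
        apply mul_le_mul_of_nonneg_right h1
        positivity
      · have h1 : {x : ι → Fin (k + 1) | x ∈ D \ S ∧ sup x = F} = ∅ := by
          ext x
          constructor
          · rintro ⟨⟨_, h2⟩, rfl⟩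
            exact absurd (not_le.1 hF) h2
          · intro h; exact absurd h (Set.notMem_empty x)
        rw [h1, dn_empty]
        have := dn_nonneg {x : ι → Fin (k + 1) | sup x = F}
        positivity
    have hDS : dn (D \ S) ≤ β / 2 := by
      rw [hd2]
      calc ∑ F, dn {x : ι → Fin (k + 1) | x ∈ D \ S ∧ sup x = F}
          ≤ ∑ F, β / 2 * dn {x : ι → Fin (k + 1) | sup x = F} := Finset.sum_le_sum fun F _ => hterm F
        _ = β / 2 := by rw [← Finset.mul_sum, ← hd1, mul_one]
    have h7 := dn_inter_add_diff D S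
    have h8 : dn (D ∩ S) ≤ dn S := dn_mono Set.inter_subset_right
    linarith
  obtain ⟨F, hF, hF2⟩ := key
  obtain ⟨V, hV⟩ := hN' F hF _ hF2
  refine ⟨lift F V, fun x => ?_⟩
  obtain ⟨y, hy⟩ := lift_rep i F V x
  rw [← hins, hy, hins]
  exact hV y

end

end Pool.Agent.Lib.MP_3efbeb_nt.DH
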