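import Pool.Agent.Lib.MP_3efbeb_nt.DH.Spec

/-!
# MD: dense sets contain subspaces
-/

set_option autoImplicit false

namespace Pool.Agent.Lib.MP_3efbeb_nt.DH

open Combinatorics

namespace MDm

noncomputable section

/-- Counting by sections. -/
theorem ncard_split {k n n' : ℕ} (A : Set (Fin n ⊕ Fin n' → Fin k)) :
    A.ncard = ∑ w : (Fin n' → Fin k), {x : Fin n → Fin k | Sum.elim x w ∈ A}.ncard := by
  classical
  have e : A ≃ Σ w : (Fin n' → Fin k), {x : Fin n → Fin k | Sum.elim x w ∈ A} :=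
    { toFun := fun a => ⟨a.1 ∘ Sum.inr, ⟨a.1 ∘ Sum.inl, by
        show Sum.elim (a.1 ∘ Sum.inl) (a.1 ∘ Sum.inr) ∈ A
        rw [Sum.elim_comp_inl_inr]
        exact a.2⟩⟩
      invFun := fun b => ⟨Sum.elim b.2.1 b.1, b.2.2⟩
      left_inv := fun a => by
        apply Subtype.ext
        exact Sum.elim_comp_inl_inr a.1
      right_inv := fun b => by
        rfl }
  rw [← Nat.card_coe_set_eq, Nat.card_congr e, Nat.card_sigma]
  rfl

theorem ncard_le {k n : ℕ} (S : Set (Fin n → Fin k)) : S.ncard ≤ k ^ n := by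
  have h := Set.ncard_le_ncard (Set.subset_univ S) (Set.toFinite _)
  rwa [Set.ncard_univ, Nat.card_eq_fintype_card, Fintype.card_fun, Fintype.card_fin,
    Fintype.card_fin] at h

/-- There are at most `(k+1)^n` lines. -/
theorem card_line (k n : ℕ) : Nat.card (Line (Fin k) (Fin n)) ≤ (k + 1) ^ n := by
  have h : Function.Injective (fun l : Line (Fin k) (Fin n) => l.idxFun) := by
    intro a b hab
    exact Line.ext hab
  have h2 := Nat.card_le_card_of_injective _ h
  rwa [Nat.card_eq_fintype_card (α := Fin n → Option (Fin k)), Fintype.card_fun, Fintype.card_option,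
    Fintype.card_fin, Fintype.card_fin] at h2

instance finite_line (k n : ℕ) : Finite (Line (Fin k) (Fin n)) :=
  Finite.of_injective (fun l : Line (Fin k) (Fin n) => l.idxFun) (fun _ _ hab => Line.ext hab)

/-- Line times subspace. -/
def lps {k m n n' : ℕ} (l : Line (Fin k) (Fin n)) (V : Subspace (Fin m) (Fin k) (Fin n')) :
    Subspace (Fin (m + 1)) (Fin k) (Fin n ⊕ Fin n') where
  idxFun := Sum.elim (fun i => (l.idxFun i).elim (Sum.inr 0) Sum.inl)
    (fun j => (V.idxFun j).map id Fin.succ)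
  proper e := by
    refine Fin.cases ?_ (fun e => ?_) e
    · obtain ⟨i, hi⟩ := l.proper
      exact ⟨Sum.inl i, by simp [hi]⟩
    · obtain ⟨j, hj⟩ := V.proper e
      exact ⟨Sum.inr j, by simp [hj]⟩

theorem lps_apply {k m n n' : ℕ} (l : Line (Fin k) (Fin n)) (V : Subspace (Fin m) (Fin k) (Fin n'))
    (x : Fin (m + 1) → Fin k) : lps l V x = Sum.elim (l (x 0)) (V (x ∘ Fin.succ)) := by
  funext i
  rcases i with i | j
  · rcases h : l.idxFun i with _ | a
    · simp [lps, Subspace.coe_apply, h]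
    · simp [lps, Subspace.coe_apply, h]
  · rcases h : V.idxFun j with a | e
    · simp [lps, Subspace.coe_apply, h]
    · simp [lps, Subspace.coe_apply, h]

/-- Markov and pigeonhole: many `w` with the same line. -/
theorem exists_line {k n n' : ℕ} (hk : 1 ≤ k) {δ : ℝ} (hδ : 0 < δ)
    (hn : ∀ S : Set (Fin n → Fin k), δ / 2 ≤ dn S → ∃ l : Line (Fin k) (Fin n), ∀ a, l a ∈ S)
    (A : Set (Fin n ⊕ Fin n' → Fin k)) (hA : δ ≤ dn A) :
    ∃ l : Line (Fin k) (Fin n), (δ / 2) / (k + 1 : ℝ) ^ n ≤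
      dn {w : Fin n' → Fin k | ∀ a, Sum.elim (l a) w ∈ A} := by
  classical
  by_contra hcon
  push Not at hcon
  have hkr : (0 : ℝ) < k := by exact_mod_cast hk
  have hp : (0 : ℝ) < (k : ℝ) ^ n := by positivity
  have hp' : (0 : ℝ) < (k : ℝ) ^ n' := by positivity
  set Wl : Line (Fin k) (Fin n) → Set (Fin n' → Fin k) :=
    fun l => {w | ∀ a, Sum.elim (l a) w ∈ A} with hWl
  set W : Set (Fin n' → Fin k) := {w | δ / 2 ≤ dn {x : Fin n → Fin k | Sum.elim x w ∈ A}} with hW
  have h1 : W ⊆ ⋃ l, Wl l := by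
    intro w hw
    obtain ⟨l, hl⟩ := hn _ hw
    exact Set.mem_iUnion.2 ⟨l, hl⟩
  have : Fintype (Line (Fin k) (Fin n)) := Fintype.ofFinite _
  have h2 : (W.ncard : ℝ) ≤ ∑ l, ((Wl l).ncard : ℝ) := by
    have h3 : W.ncard ≤ ∑ l, (Wl l).ncard := by
      refine (Set.ncard_le_ncard h1 (Set.toFinite _)).trans ?_
      have := Set.ncard_iUnion_le_of_fintype Wl
      exact this
    exact_mod_cast h3
  have h4 : (A.ncard : ℝ) ≤ W.ncard * (k : ℝ) ^ n + δ / 2 * ((k : ℝ) ^ n * (k : ℝ) ^ n') := by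
    rw [ncard_split A]
    push_cast
    have h5 : ∀ w : Fin n' → Fin k, ({x : Fin n → Fin k | Sum.elim x w ∈ A}.ncard : ℝ) ≤
        (if w ∈ W then (k : ℝ) ^ n else 0) + δ / 2 * (k : ℝ) ^ n := by
      intro w
      by_cases hw : w ∈ W
      · rw [if_pos hw]
        have := ncard_le {x : Fin n → Fin k | Sum.elim x w ∈ A}
        have h6 : ({x : Fin n → Fin k | Sum.elim x w ∈ A}.ncard : ℝ) ≤ (k : ℝ) ^ n := by
          exact_mod_cast this
        have : 0 ≤ δ / 2 * (k : ℝ) ^ n := by positivity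
        linarith
      · rw [if_neg hw, zero_add]
        have h6 : dn {x : Fin n → Fin k | Sum.elim x w ∈ A} < δ / 2 := not_le.1 hw
        rw [dn, Nat.card_eq_fintype_card, Fintype.card_fin, div_lt_iff₀ hp] at h6
        exact h6.le
    refine (Finset.sum_le_sum fun w _ => h5 w).trans ?_
    rw [Finset.sum_add_distrib, Finset.sum_const, Finset.card_univ, Fintype.card_fun,
      Fintype.card_fin, Fintype.card_fin, ← Finset.sum_filter, Finset.sum_const, nsmul_eq_mul,
      nsmul_eq_mul]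
    have h7 : W.ncard = (Finset.univ.filter (fun w => w ∈ W)).card := by
      rw [← Set.ncard_coe_finset]
      congr 1
      ext w
      simp
    rw [h7]
    push_cast
    apply le_of_eq
    ring
  have h8 : δ * ((k : ℝ) ^ n * (k : ℝ) ^ n') ≤ A.ncard := by
    rw [dn, Nat.card_sum, Nat.card_eq_fintype_card, Nat.card_eq_fintype_card, Fintype.card_fin,
      Fintype.card_fin, pow_add, le_div_iff₀ (by positivity)] at hA
    exact hA
  have h9 : δ / 2 * (k : ℝ) ^ n' ≤ W.ncard := by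
    have : δ / 2 * (k : ℝ) ^ n' * (k : ℝ) ^ n ≤ W.ncard * (k : ℝ) ^ n := by nlinarith
    exact le_of_mul_le_mul_right this hp
  have h10 : 0 < δ / 2 * (k : ℝ) ^ n' := by positivity
  have h11 : ∀ l, ((Wl l).ncard : ℝ) < (δ / 2) / (k + 1 : ℝ) ^ n * (k : ℝ) ^ n' := by
    intro l
    have h12 := hcon l
    rw [dn, Nat.card_eq_fintype_card, Fintype.card_fin, div_lt_iff₀ hp'] at h12
    exact h12
  rcases isEmpty_or_nonempty (Line (Fin k) (Fin n)) with hE | hE
  · rw [Finset.univ_eq_empty, Finset.sum_empty] at h2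
    linarith
  · have h13 : ∑ l, ((Wl l).ncard : ℝ) < ∑ _l : Line (Fin k) (Fin n),
        (δ / 2) / (k + 1 : ℝ) ^ n * (k : ℝ) ^ n' :=
      Finset.sum_lt_sum_of_nonempty Finset.univ_nonempty (fun l _ => h11 l)
    rw [Finset.sum_const, Finset.card_univ, nsmul_eq_mul] at h13
    have h14 : (Fintype.card (Line (Fin k) (Fin n)) : ℝ) ≤ (k + 1 : ℝ) ^ n := by
      have := card_line k n
      rw [Nat.card_eq_fintype_card] at this
      exact_mod_cast this
    have h15 : (Fintype.card (Line (Fin k) (Fin n)) : ℝ) *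
        ((δ / 2) / (k + 1 : ℝ) ^ n * (k : ℝ) ^ n') ≤
        (k + 1 : ℝ) ^ n * ((δ / 2) / (k + 1 : ℝ) ^ n * (k : ℝ) ^ n') :=
      mul_le_mul_of_nonneg_right h14 (by positivity)
    have h16 : (k + 1 : ℝ) ^ n * ((δ / 2) / (k + 1 : ℝ) ^ n * (k : ℝ) ^ n') =
        δ / 2 * (k : ℝ) ^ n' := by
      have : (k + 1 : ℝ) ^ n ≠ 0 := by positivity
      field_simp
    linarith

/-- Transport of the density along an equivalence. -/
theorem dn_transport {k : ℕ} {ι ι' : Type} [Finite ι] [Finite ι'] (e : ι ≃ ι')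
    (A : Set (ι → Fin k)) : dn {x : ι' → Fin k | x ∘ e ∈ A} = dn A := by
  unfold dn
  have h : {x : ι' → Fin k | x ∘ e ∈ A}.ncard = A.ncard := by
    rw [← Nat.card_coe_set_eq, ← Nat.card_coe_set_eq]
    refine Nat.card_congr ⟨fun x => ⟨x.1 ∘ e, x.2⟩, fun y => ⟨y.1 ∘ e.symm, ?_⟩, ?_, ?_⟩
    · show (y.1 ∘ e.symm) ∘ e ∈ A
      have : (y.1 ∘ e.symm) ∘ e = y.1 := by
        funext i
        simp
      rw [this]
      exact y.2
    · intro x
      apply Subtype.ext
      funext i
      simp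
    · intro y
      apply Subtype.ext
      funext i
      simp
  rw [h, Nat.card_congr e]

end

end MDm

open MDm in
/-- MD: dense sets contain subspaces. -/
theorem specMD : SpecMD := by
  intro k m hk hD
  induction m with
  | zero =>
    intro δ hδ
    refine ⟨0, fun ι _ _ A hA => ?_⟩
    have : A.Nonempty := by
      by_contra h
      rw [Set.not_nonempty_iff_eq_empty] at h
      rw [h, dn, Set.ncard_empty] at hA
      simp at hA
      linarith
    obtain ⟨x, hx⟩ := this
    exact ⟨⟨fun i => Sum.inl (x i), fun e => e.elim0⟩, fun _ => hx⟩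
  | succ m ih =>
    intro δ hδ
    obtain ⟨n, hn⟩ := hD (δ / 2) (by positivity)
    obtain ⟨N', hN'⟩ := ih ((δ / 2) / (k + 1 : ℝ) ^ n) (by positivity)
    refine ⟨n + N', fun ι _ hι A hA => ?_⟩
    obtain ⟨n', hn'⟩ : ∃ n', Nat.card ι = n + n' := ⟨Nat.card ι - n, by omega⟩
    have : Fintype ι := Fintype.ofFinite ι
    let e : ι ≃ Fin n ⊕ Fin n' := (Finite.equivFinOfCardEq hn').trans finSumFinEquiv.symm
    have hA' : δ ≤ dn {x : Fin n ⊕ Fin n' → Fin k | x ∘ e ∈ A} := by
      rw [dn_transport e A]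
      exact hA
    obtain ⟨l, hl⟩ := exists_line hk hδ (fun S hS => hn (Fin n) (by simp) S hS) _ hA'
    obtain ⟨V, hV⟩ := hN' (Fin n') (by simp; omega) _ hl
    refine ⟨(lps l V).reindex (Equiv.refl _) (Equiv.refl _) e.symm, fun x => ?_⟩
    have h1 : (lps l V).reindex (Equiv.refl _) (Equiv.refl _) e.symm x = (lps l V x) ∘ e := by
      funext i
      rw [Subspace.reindex_apply]
      rfl
    rw [h1]
    have h2 := hV (x ∘ Fin.succ) (x 0)
    rw [lps_apply]
    exact h2

end Pool.Agent.Lib.MP_3efbeb_nt.DH
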