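import Pool.Agent.Lib.MP_3efbeb_nt.DH.Base

/-!
# ONEW: the density of a line-free set
-/

set_option autoImplicit false

namespace Pool.Agent.Lib.MP_3efbeb_nt.DH

open Combinatorics

namespace ONEWm

/-- The line through `y`: the last letter is the variable. -/
def lastLine {k m : ℕ} (y : Fin m → Fin (k + 1)) (h : ∃ j, y j = Fin.last k) :
    Line (Fin (k + 1)) (Fin m) where
  idxFun j := if y j = Fin.last k then none else some (y j)
  proper := by
    obtain ⟨j, hj⟩ := h
    exact ⟨j, if_pos hj⟩

theorem lastLine_last {k m : ℕ} (y : Fin m → Fin (k + 1)) (h : ∃ j, y j = Fin.last k) :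
    lastLine y h (Fin.last k) = y := by
  funext j
  by_cases hj : y j = Fin.last k
  · simp [lastLine, Line.coe_apply, hj]
  · simp [lastLine, Line.coe_apply, hj]

theorem lastLine_castSucc {k m : ℕ} (y : Fin m → Fin (k + 1)) (h : ∃ j, y j = Fin.last k) (i : Fin k) :
    lastLine y h i.castSucc = rep i y := by
  funext j
  by_cases hj : y j = Fin.last k
  · simp [lastLine, Line.coe_apply, rep, hj]
  · simp [lastLine, Line.coe_apply, rep, hj]

/-- Words without the last letter. -/
theorem ncard_noLast (k m : ℕ) :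
    {y : Fin m → Fin (k + 1) | ∀ j, y j ≠ Fin.last k}.ncard ≤ k ^ m := by
  have h : {y : Fin m → Fin (k + 1) | ∀ j, y j ≠ Fin.last k} ⊆
      (fun z : Fin m → Fin k => fun j => (z j).castSucc) '' Set.univ := by
    intro y hy
    refine ⟨fun j => (y j).castPred (hy j), trivial, ?_⟩
    funext j
    simp
  refine (Set.ncard_le_ncard h (Set.toFinite _)).trans ((Set.ncard_image_le (Set.toFinite _)).trans ?_)
  rw [Set.ncard_univ, Nat.card_eq_fintype_card, Fintype.card_fun, Fintype.card_fin, Fintype.card_fin]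

end ONEWm

open ONEWm in
/-- ONEW. -/
theorem specONEW (hPTI : SpecPTI) (hPAV : SpecPAV) : SpecONEW := by
  classical
  intro k β θ hk hD hβ hθ hDD
  obtain ⟨m', hm'⟩ := hDD
  obtain ⟨N, hN⟩ := hPTI k m' k hk hD β hβ
  have hkr : (0 : ℝ) < k := by exact_mod_cast hk
  obtain ⟨m1, hm1⟩ : ∃ m1 : ℕ, ∀ m, m1 ≤ m → ((k : ℝ) / (k + 1)) ^ m ≤ β := by
    have h1 : (k : ℝ) / (k + 1) < 1 := by
      rw [div_lt_one (by positivity)]
      linarith
    obtain ⟨m1, h2⟩ := exists_pow_lt_of_lt_one hβ h1
    refine ⟨m1, fun m hm => ?_⟩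
    exact (pow_le_pow_of_le_one (by positivity) h1.le hm).trans h2.le
  refine ⟨max N m1, fun m hm B hB => ?_⟩
  have hmN : N ≤ m := (le_max_left _ _).trans hm
  have hmm : m1 ≤ m := (le_max_right _ _).trans hm
  set D : Fin k → Set (Fin m → Fin (k + 1)) := fun i => {y | rep i y ∈ B} with hDdef
  set DD : Set (Fin m → Fin (k + 1)) := {y | ∀ i : Fin k, rep i y ∈ B} with hDDdef
  have hins : ∀ i, Ins i (D i) := by
    intro i x
    show rep i (rep i x) ∈ B ↔ rep i x ∈ B
    rw [rep_rep]
  -- the part in `DD`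
  have hBD : dn (B ∩ DD) ≤ β := by
    have h1 : B ∩ DD ⊆ {y : Fin m → Fin (k + 1) | ∀ j, y j ≠ Fin.last k} := by
      rintro y ⟨hy, hyD⟩ j hj
      apply hB
      refine ⟨lastLine y ⟨j, hj⟩, fun a => ?_⟩
      refine Fin.lastCases ?_ (fun i => ?_) a
      · rw [lastLine_last]
        exact hy
      · rw [lastLine_castSucc]
        exact hyD i
    refine (dn_mono h1).trans (le_trans ?_ (hm1 m hmm))
    rw [dn, Nat.card_eq_fintype_card, Fintype.card_fin, div_pow]
    push_cast
    refine div_le_div_of_nonneg_right ?_ (by positivity)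
    exact_mod_cast ncard_noLast k m
  -- the other parts
  set P : Fin k → Set (Fin m → Fin (k + 1)) :=
    fun i => {y | (∀ t, t < i → y ∈ D t) ∧ y ∉ D i} with hPdef
  have hPart : ∀ i, Part m' β (P i) := by
    intro i
    have h1 := hN (Fin m) (by simpa using hmN) (fun t => t)
      (fun t => if t < i then D t else if t = i then (D t)ᶜ else Set.univ) (fun t => ?_)
    · have h2 : (⋂ t, (fun t => if t < i then D t else if t = i then (D t)ᶜ else Set.univ) t) =
          P i := by
        ext y
        rw [Set.mem_iInter]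
        constructor
        · intro h
          refine ⟨fun t ht => ?_, ?_⟩
          · have := h t
            simpa [ht] using this
          · have := h i
            simpa using this
        · rintro ⟨h3, h4⟩ t
          by_cases ht : t < i
          · simp only [if_pos ht]
            exact h3 t ht
          · by_cases ht' : t = i
            · subst ht'
              simp only [lt_irrefl, if_false, if_true]
              exact h4
            · simp only [if_neg ht, if_neg ht']
              trivial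
      rw [h2] at h1
      exact h1
    · by_cases ht : t < i
      · simp only [if_pos ht]
        exact hins t
      · by_cases ht' : t = i
        · simp only [if_neg ht, if_pos ht']
          exact fun x => not_congr (hins t x)
        · simp only [if_neg ht, if_neg ht']
          exact fun x => Iff.rfl
  have hsub : ∀ U : Subspace (Fin m') (Fin (k + 1)) (Fin m), dn {x | U x ∈ B} ≤ θ := by
    intro U
    by_contra hcon
    push Not at hcon
    obtain ⟨l, hl⟩ := hm' (Fin m') (by simp) _ hcon.le
    apply hB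
    refine ⟨LC U l, fun a => ?_⟩
    rw [LC_apply]
    exact hl a
  have hP1 : ∀ i, dn (B ∩ P i) ≤ θ * dn (P i) + β := fun i =>
    hPAV (k + 1) m' β θ (Fin m) (P i) B (by omega) hθ (hPart i) hsub
  have hdisj : ∀ i i', i ≠ i' → Disjoint (P i) (P i') := by
    intro i i' hii
    rw [Set.disjoint_left]
    rintro y ⟨h1, h2⟩ ⟨h3, h4⟩
    rcases lt_or_gt_of_ne hii with h | h
    · exact h2 (h3 i h)
    · exact h4 (h1 i' h)
  have hun : (⋃ i, P i) = DDᶜ := by
    ext y
    rw [Set.mem_iUnion]
    constructor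
    · rintro ⟨i, _, h2⟩ h3
      exact h2 (h3 i)
    · intro h
      have h1 : ∃ i, y ∉ D i := by
        by_contra hcon
        push Not at hcon
        exact h hcon
      have h2 : ∃ n : ℕ, ∃ hn : n < k, y ∉ D ⟨n, hn⟩ := by
        obtain ⟨i, hi⟩ := h1
        exact ⟨i, i.2, hi⟩
      obtain ⟨hn, h3⟩ := Nat.find_spec h2
      refine ⟨⟨Nat.find h2, hn⟩, fun t ht => ?_, h3⟩
      by_contra h4
      exact Nat.find_min h2 (show (t : ℕ) < Nat.find h2 from ht) ⟨t.2, h4⟩
  have hsum : ∑ i, dn (P i) = 1 - dn DD := by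
    rw [← dn_iUnion P hdisj, hun, dn_compl (by omega)]
  have hBsub : B ⊆ (B ∩ DD) ∪ ⋃ i, (B ∩ P i) := by
    intro y hy
    by_cases h : y ∈ DD
    · exact Or.inl ⟨hy, h⟩
    · have h1 : y ∈ ⋃ i, P i := by
        rw [hun]
        exact h
      obtain ⟨i, hi⟩ := Set.mem_iUnion.1 h1
      exact Or.inr (Set.mem_iUnion.2 ⟨i, hy, hi⟩)
  calc dn B ≤ dn ((B ∩ DD) ∪ ⋃ i, (B ∩ P i)) := dn_mono hBsub
    _ ≤ dn (B ∩ DD) + dn (⋃ i, (B ∩ P i)) := dn_union_le _ _
    _ ≤ β + ∑ i, dn (B ∩ P i) := add_le_add hBD (dn_iUnion_le _)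
    _ ≤ β + ∑ i : Fin k, (θ * dn (P i) + β) := by
        gcongr with i
        exact hP1 i
    _ = (k + 1) * β + θ * (1 - dn DD) := by
        rw [Finset.sum_add_distrib, ← Finset.mul_sum, hsum, Finset.sum_const, Finset.card_univ,
          Fintype.card_fin, nsmul_eq_mul]
        ring

end Pool.Agent.Lib.MP_3efbeb_nt.DH
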