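import Pool.Agent.Lib.MP_3efbeb_nt.DH.Spec

/-!
# PAV: averages over a partition into subspaces
-/

set_option autoImplicit false

namespace Pool.Agent.Lib.MP_3efbeb_nt.DH

open Combinatorics

namespace PAVm

theorem sub_inj {k : ℕ} {η ι : Type} (U : Subspace η (Fin k) ι) {x y : η → Fin k} (h : U x = U y) :
    x = y := by
  funext e
  obtain ⟨i, hi⟩ := U.proper e
  have h1 := congrFun h i
  rwa [Subspace.apply_inr hi, Subspace.apply_inr hi] at h1

end PAVm

open PAVm in
/-- PAV. -/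
theorem specPAV : SpecPAV := by
  classical
  intro k m β θ ι _ P A hk hθ hP hA
  obtain ⟨J, _, U, hU, hd, hr⟩ := hP
  have : Fintype ι := Fintype.ofFinite ι
  have : Fintype J := Fintype.ofFinite J
  have hkr : (0 : ℝ) < k := by exact_mod_cast hk
  have hp : (0 : ℝ) < (k : ℝ) ^ Nat.card ι := by positivity
  have hpm : (0 : ℝ) < (k : ℝ) ^ m := by positivity
  set R : Set (ι → Fin k) := {y | y ∈ P ∧ ∀ j x, U j x ≠ y} with hR
  -- the subspaces are disjoint and lie in `P`
  have h1 : (∑ _j : J, (k : ℝ) ^ m) ≤ P.ncard := by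
    have h2 : Function.Injective (fun p : J × (Fin m → Fin k) => (⟨U p.1 p.2, hU p.1 p.2⟩ : P)) := by
      rintro ⟨j, x⟩ ⟨j', x'⟩ h
      have h3 : U j x = U j' x' := congrArg Subtype.val h
      obtain rfl := hd j j' x x' h3
      rw [sub_inj (U j) h3]
    have h4 := Nat.card_le_card_of_injective _ h2
    rw [Nat.card_prod, Nat.card_coe_set_eq, Nat.card_eq_fintype_card (α := J),
      Nat.card_eq_fintype_card (α := Fin m → Fin k), Fintype.card_fun, Fintype.card_fin,
      Fintype.card_fin] at h4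
    rw [Finset.sum_const, Finset.card_univ, nsmul_eq_mul]
    exact_mod_cast h4
  have h5 : A ∩ P ⊆ (⋃ j, (fun x => U j x) '' {x | U j x ∈ A}) ∪ R := by
    rintro y ⟨hy, hyP⟩
    by_cases h : ∀ j x, U j x ≠ y
    · exact Or.inr ⟨hyP, h⟩
    · push Not at h
      obtain ⟨j, x, rfl⟩ := h
      exact Or.inl (Set.mem_iUnion.2 ⟨j, x, hy, rfl⟩)
  have h6 : ((A ∩ P).ncard : ℝ) ≤ ∑ j, ({x | U j x ∈ A}.ncard : ℝ) + R.ncard := by
    have h7 : (A ∩ P).ncard ≤ ∑ j, {x | U j x ∈ A}.ncard + R.ncard := by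
      refine (Set.ncard_le_ncard h5 (Set.toFinite _)).trans ((Set.ncard_union_le _ _).trans ?_)
      refine Nat.add_le_add_right ?_ _
      refine (Set.ncard_iUnion_le_of_fintype _).trans (Finset.sum_le_sum fun j _ => ?_)
      exact Set.ncard_image_le (Set.toFinite _)
    exact_mod_cast h7
  have h8 : ∀ j, ({x | U j x ∈ A}.ncard : ℝ) ≤ θ * (k : ℝ) ^ m := by
    intro j
    have h9 := hA (U j)
    rw [dn, Nat.card_eq_fintype_card, Fintype.card_fin, div_le_iff₀ hpm] at h9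
    exact h9
  have h10 : (R.ncard : ℝ) ≤ β * (k : ℝ) ^ Nat.card ι := by
    rw [dn, div_le_iff₀ hp] at hr
    exact hr
  have h11 : ∑ j, ({x | U j x ∈ A}.ncard : ℝ) ≤ θ * P.ncard := by
    refine (Finset.sum_le_sum fun j _ => h8 j).trans ?_
    rw [← Finset.mul_sum]
    exact mul_le_mul_of_nonneg_left h1 hθ
  have h12 : ((A ∩ P).ncard : ℝ) ≤ θ * P.ncard + β * (k : ℝ) ^ Nat.card ι := by linarith
  have h13 : θ * dn P + β = (θ * P.ncard + β * (k : ℝ) ^ Nat.card ι) / (k : ℝ) ^ Nat.card ι := by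
    rw [dn]
    field_simp
  rw [h13]
  exact div_le_div_of_nonneg_right h12 hp.le

end Pool.Agent.Lib.MP_3efbeb_nt.DH
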