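import Pool.Agent.Lib.MP_3efbeb_nt.DH.Base

/-!
# MP_3efbeb_nt, DH, module PT (helper91): insensitive sets are disjoint unions of subspaces up to `β`
-/

set_option autoImplicit false

namespace Pool.Agent.Lib.MP_3efbeb_nt.DH

open Combinatorics

noncomputable section

namespace PT

/-- subspace × point -/
def sp {α η ι ι' : Type} (U : Subspace η α ι) (w : ι' → α) : Subspace η α (ι ⊕ ι') where
  idxFun := Sum.elim U.idxFun (fun j => Sum.inl (w j))
  proper e := by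
    obtain ⟨i, hi⟩ := U.proper e
    exact ⟨Sum.inl i, hi⟩

theorem sp_apply {α η ι ι' : Type} (U : Subspace η α ι) (w : ι' → α) (x : η → α) :
    sp U w x = Sum.elim (U x) w := by
  funext i
  cases i <;> rfl

/-- point × subspace -/
def ps {α η ι ι' : Type} (w : ι → α) (U : Subspace η α ι') : Subspace η α (ι ⊕ ι') where
  idxFun := Sum.elim (fun j => Sum.inl (w j)) U.idxFun
  proper e := by
    obtain ⟨i, hi⟩ := U.proper e
    exact ⟨Sum.inr i, hi⟩

theorem ps_apply {α η ι ι' : Type} (w : ι → α) (U : Subspace η α ι') (x : η → α) :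
    ps w U x = Sum.elim w (U x) := by
  funext i
  cases i <;> rfl

/-- transport -/
def tr {α η ι ι' : Type} (e : ι ≃ ι') (U : Subspace η α ι') : Subspace η α ι where
  idxFun i := U.idxFun (e i)
  proper c := by
    obtain ⟨i, hi⟩ := U.proper c
    exact ⟨e.symm i, by simpa using hi⟩

theorem tr_apply {α η ι ι' : Type} (e : ι ≃ ι') (U : Subspace η α ι') (x : η → α) :
    tr e U x = U x ∘ e := rfl

theorem part_mono {k : ℕ} {ι : Type} [Finite ι] {m : ℕ} {β β' : ℝ} {D : Set (ι → Fin k)} (h : Part m β D)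
    (hβ : β ≤ β') : Part m β' D := by
  obtain ⟨J, hJ, U, h1, h2, h3⟩ := h
  exact ⟨J, hJ, U, h1, h2, h3.trans hβ⟩

theorem part_equiv {k : ℕ} {ι ι' : Type} [Finite ι] [Finite ι'] {m : ℕ} {β : ℝ} (e : ι ≃ ι')
    {D : Set (ι → Fin k)} (h : Part m β {x : ι' → Fin k | x ∘ e ∈ D}) : Part m β D := by
  obtain ⟨J, hJ, U, h1, h2, h3⟩ := h
  refine ⟨J, hJ, fun j => tr e (U j), fun j x => h1 j x, fun j j' x x' hx => ?_, ?_⟩
  · apply h2 j j' x x'
    rw [tr_apply, tr_apply] at hx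
    exact (e.surjective.injective_comp_right) hx
  · rw [← dn_equiv e]
    refine le_trans (dn_mono ?_) h3
    rintro x ⟨hx1, hx2⟩
    refine ⟨hx1, fun j a ha => hx2 j a ?_⟩
    rw [tr_apply, ha]

theorem dn_singleton {k : ℕ} {ι : Type} [Finite ι] (p : ι → Fin k) :
    dn ({p} : Set (ι → Fin k)) = 1 / (k : ℝ) ^ Nat.card ι := by
  unfold dn
  rw [Set.ncard_singleton, Nat.cast_one]

theorem step_sum {k m M : ℕ} {β q : ℝ} (hβ : 0 < β)
    (hins : ∀ (i : Fin k) (D : Set (Fin M → Fin (k + 1))), Ins i D → β / 2 ≤ dn D →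
      ∃ U : Subspace (Fin m) (Fin (k + 1)) (Fin M), ∀ x, U x ∈ D)
    (hq : q = 1 - 1 / ((k + 1 : ℕ) : ℝ) ^ M) (hq0 : 0 ≤ q) (hq1 : q ≤ 1) {r : ℕ}
    (ih : ∀ (ι : Type) [Finite ι], r * M ≤ Nat.card ι → ∀ (i : Fin k) (D : Set (ι → Fin (k + 1))), Ins i D →
      Part m (β / 2 * (1 - q ^ r) + q ^ r * dn D) D)
    (ι' : Type) [Finite ι'] (hι' : r * M ≤ Nat.card ι') (i : Fin k) (D : Set (Fin M ⊕ ι' → Fin (k + 1)))
    (hD : Ins i D) : Part m (β / 2 * (1 - q ^ (r + 1)) + q ^ (r + 1) * dn D) D := by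
  classical
  set Dw : (ι' → Fin (k + 1)) → Set (Fin M → Fin (k + 1)) := fun w => {x | Sum.elim x w ∈ D} with hDwdef
  have hDw : ∀ w, Dw (rep i w) = Dw w := by
    intro w
    ext x
    show Sum.elim x (rep i w) ∈ D ↔ Sum.elim x w ∈ D
    rw [← hD (Sum.elim x (rep i w)), ← hD (Sum.elim x w), rep_elim, rep_elim, rep_rep]
  have hDwI : ∀ w, Ins i (Dw w) := by
    intro w x
    show Sum.elim (rep i x) w ∈ D ↔ Sum.elim x w ∈ D
    rw [← hD (Sum.elim (rep i x) w), ← hD (Sum.elim x w), rep_elim, rep_elim, rep_rep]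
  have hΦ : ∀ E : {E : Set (Fin M → Fin (k + 1)) // Ins i E ∧ β / 2 ≤ dn E},
      ∃ U : Subspace (Fin m) (Fin (k + 1)) (Fin M), ∀ x, U x ∈ E.1 := fun E => hins i E.1 E.2.1 E.2.2
  choose Φ hΦ using hΦ
  set Cov : Set (Fin M → Fin (k + 1)) → Set (Fin M → Fin (k + 1)) :=
    fun E => {x | ∃ (h : Ins i E ∧ β / 2 ≤ dn E) (a : Fin m → Fin (k + 1)), Φ ⟨E, h⟩ a = x} with hCov
  set D' : (Fin M → Fin (k + 1)) → Set (ι' → Fin (k + 1)) :=
    fun x => {w | Sum.elim x w ∈ D ∧ x ∉ Cov (Dw w)} with hD'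
  have hD'I : ∀ x, Ins i (D' x) := by
    intro x w
    have h1 : Sum.elim x (rep i w) ∈ D ↔ Sum.elim x w ∈ D := by
      show x ∈ Dw (rep i w) ↔ x ∈ Dw w
      rw [hDw]
    show (Sum.elim x (rep i w) ∈ D ∧ x ∉ Cov (Dw (rep i w))) ↔ (Sum.elim x w ∈ D ∧ x ∉ Cov (Dw w))
    rw [hDw, h1]
  have hrec : ∀ x, ∃ (J : Type) (_ : Finite J) (U : J → Subspace (Fin m) (Fin (k + 1)) ι'),
      (∀ j a, U j a ∈ D' x) ∧ (∀ j j' a a', U j a = U j' a' → j = j') ∧
        dn {y | y ∈ D' x ∧ ∀ j a, U j a ≠ y} ≤ β / 2 * (1 - q ^ r) + q ^ r * dn (D' x) :=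
    fun x => ih ι' hι' i (D' x) (hD'I x)
  choose J hJ U hU1 hU2 hU3 using hrec
  refine ⟨{w : ι' → Fin (k + 1) // β / 2 ≤ dn (Dw w)} ⊕ (Σ x : Fin M → Fin (k + 1), J x), inferInstance,
    Sum.elim (fun w => sp (Φ ⟨Dw w.1, hDwI w.1, w.2⟩) w.1) (fun p => ps p.1 (U p.1 p.2)), ?_, ?_, ?_⟩
  · rintro (w | p) a
    · rw [Sum.elim_inl, sp_apply]
      exact hΦ ⟨Dw w.1, hDwI w.1, w.2⟩ a
    · rw [Sum.elim_inr, ps_apply]
      exact (hU1 p.1 p.2 a).1
  · rintro (w | ⟨x, j⟩) (w' | ⟨x', j'⟩) a a' h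
    · rw [Sum.elim_inl, Sum.elim_inl, sp_apply, sp_apply] at h
      have h2 : w.1 = w'.1 := by
        have := congrArg (fun f => f ∘ Sum.inr) h
        simpa using this
      rw [Subtype.ext h2]
    · exfalso
      rw [Sum.elim_inl, Sum.elim_inr, sp_apply, ps_apply] at h
      have h1 : Φ ⟨Dw w.1, hDwI w.1, w.2⟩ a = x' := by
        have := congrArg (fun f => f ∘ Sum.inl) h
        simpa using this
      have h2 : w.1 = U x' j' a' := by
        have := congrArg (fun f => f ∘ Sum.inr) h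
        simpa using this
      apply (hU1 x' j' a').2
      rw [← h2]
      exact ⟨⟨hDwI w.1, w.2⟩, a, h1⟩
    · exfalso
      rw [Sum.elim_inl, Sum.elim_inr, sp_apply, ps_apply] at h
      have h1 : Φ ⟨Dw w'.1, hDwI w'.1, w'.2⟩ a' = x := by
        have := congrArg (fun f => f ∘ Sum.inl) h
        simpa using this.symm
      have h2 : w'.1 = U x j a := by
        have := congrArg (fun f => f ∘ Sum.inr) h
        simpa using this.symm
      apply (hU1 x j a).2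
      rw [← h2]
      exact ⟨⟨hDwI w'.1, w'.2⟩, a', h1⟩
    · rw [Sum.elim_inr, Sum.elim_inr, ps_apply, ps_apply] at h
      have h1 : x = x' := by
        have := congrArg (fun f => f ∘ Sum.inl) h
        simpa using this
      subst h1
      have h2 : U x j a = U x j' a' := by
        have := congrArg (fun f => f ∘ Sum.inr) h
        simpa using this
      rw [hU2 x j j' a a' h2]
  · have hpt : ∀ w, dn {x | x ∈ Dw w ∧ x ∉ Cov (Dw w)} ≤ q * dn (Dw w) + (1 - q) * (β / 2) := by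
      intro w
      have hle1 : dn (Dw w) ≤ 1 := dn_le_one _
      by_cases h : β / 2 ≤ dn (Dw w)
      · set p0 := Φ ⟨Dw w, hDwI w, h⟩ (fun _ => 0) with hp0
        have hsub : {x | x ∈ Dw w ∧ x ∉ Cov (Dw w)} ∪ {p0} ⊆ Dw w := by
          rintro x (hx | hx)
          · exact hx.1
          · rw [Set.mem_singleton_iff.1 hx]
            exact hΦ ⟨Dw w, hDwI w, h⟩ _
        have hdis : Disjoint {x | x ∈ Dw w ∧ x ∉ Cov (Dw w)} ({p0} : Set (Fin M → Fin (k + 1))) := by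
          rw [Set.disjoint_singleton_right]
          rintro ⟨_, h2⟩
          exact h2 ⟨⟨hDwI w, h⟩, _, rfl⟩
        have h1 := dn_mono hsub
        rw [dn_disj hdis, dn_singleton, Nat.card_eq_fintype_card, Fintype.card_fin] at h1
        have h2 : 1 / ((k + 1 : ℕ) : ℝ) ^ M = 1 - q := by rw [hq]; ring
        rw [h2] at h1
        nlinarith [mul_nonneg (sub_nonneg.2 hq1) (sub_nonneg.2 hle1), mul_nonneg (sub_nonneg.2 hq1) hβ.le]
      · have h1 : dn {x | x ∈ Dw w ∧ x ∉ Cov (Dw w)} ≤ dn (Dw w) := dn_mono (fun x hx => hx.1)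
        nlinarith [mul_nonneg (sub_nonneg.2 hq1) (sub_nonneg.2 (not_le.1 h).le)]
    have hkey : av (fun x => dn (D' x)) ≤ q * dn D + (1 - q) * (β / 2) := by
      have e1 : av (fun x => dn (D' x)) = av (fun w => dn {x | x ∈ Dw w ∧ x ∉ Cov (Dw w)}) := by
        have h1 := dn_prod {y : Fin M ⊕ ι' → Fin (k + 1) | y ∈ D ∧ y ∘ Sum.inl ∉ Cov (Dw (y ∘ Sum.inr))}
        have h2 := dn_prod' {y : Fin M ⊕ ι' → Fin (k + 1) | y ∈ D ∧ y ∘ Sum.inl ∉ Cov (Dw (y ∘ Sum.inr))}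
        exact h1.symm.trans h2
      have e2 : av (fun w => dn (Dw w)) = dn D := (dn_prod' D).symm
      rw [e1]
      refine (av_mono hpt).trans (le_of_eq ?_)
      rw [av_add, av_const (by omega), av_mul_left, e2]
    have h1 : dn {y | y ∈ D ∧ ∀ j a, (Sum.elim (fun w : {w : ι' → Fin (k + 1) // β / 2 ≤ dn (Dw w)} =>
          sp (Φ ⟨Dw w.1, hDwI w.1, w.2⟩) w.1) (fun p : (Σ x : Fin M → Fin (k + 1), J x) => ps p.1 (U p.1 p.2)) j :
            Subspace (Fin m) (Fin (k + 1)) (Fin M ⊕ ι')) a ≠ y} ≤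
        av (fun x => dn {w | w ∈ D' x ∧ ∀ j a, U x j a ≠ w}) := by
      rw [dn_prod]
      refine av_mono fun x => dn_mono ?_
      rintro w ⟨hw1, hw2⟩
      refine ⟨⟨hw1, ?_⟩, ?_⟩
      · rintro ⟨h, a, ha⟩
        exact hw2 (Sum.inl ⟨w, h.2⟩) a (by rw [Sum.elim_inl, sp_apply, ha])
      · intro j a hja
        exact hw2 (Sum.inr ⟨x, j⟩) a (by rw [Sum.elim_inr, ps_apply, hja])
    have h2 : av (fun x => dn {w | w ∈ D' x ∧ ∀ j a, U x j a ≠ w}) ≤
        av (fun x => β / 2 * (1 - q ^ r) + q ^ r * dn (D' x)) := av_mono fun x => hU3 x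
    have h3 : av (fun x => β / 2 * (1 - q ^ r) + q ^ r * dn (D' x)) =
        β / 2 * (1 - q ^ r) + q ^ r * av (fun x => dn (D' x)) := by
      rw [av_add, av_const (by omega), av_mul_left]
    have h4 : q ^ r * av (fun x => dn (D' x)) ≤ q ^ r * (q * dn D + (1 - q) * (β / 2)) :=
      mul_le_mul_of_nonneg_left hkey (pow_nonneg hq0 r)
    refine h1.trans (h2.trans ?_)
    rw [h3]
    refine (add_le_add_right h4 _).trans (le_of_eq ?_)
    rw [pow_succ]
    ring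

end PT

open PT in
/-- PT from INS -/
theorem specPT (hINS : SpecINS) : SpecPT := by
  intro k m hk hDHJ β hβ
  obtain ⟨M, hM⟩ := hINS k m hk hDHJ (β / 2) (by positivity)
  obtain ⟨q, hq⟩ : ∃ q : ℝ, q = 1 - 1 / ((k + 1 : ℕ) : ℝ) ^ M := ⟨_, rfl⟩
  have hK : (1 : ℝ) ≤ ((k + 1 : ℕ) : ℝ) ^ M := one_le_pow₀ (by push_cast; linarith [(Nat.cast_nonneg k : (0 : ℝ) ≤ k)])
  have hK0 : (0 : ℝ) < ((k + 1 : ℕ) : ℝ) ^ M := lt_of_lt_of_le one_pos hK
  have hinv : 1 / ((k + 1 : ℕ) : ℝ) ^ M ≤ 1 := by rw [div_le_one hK0]; exact hK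
  have hinv0 : 0 < 1 / ((k + 1 : ℕ) : ℝ) ^ M := by positivity
  have hq0 : 0 ≤ q := by rw [hq]; linarith
  have hq1 : q < 1 := by rw [hq]; linarith
  have hins : ∀ (i : Fin k) (D : Set (Fin M → Fin (k + 1))), Ins i D → β / 2 ≤ dn D →
      ∃ U : Subspace (Fin m) (Fin (k + 1)) (Fin M), ∀ x, U x ∈ D :=
    fun i D => hM (Fin M) (by rw [Nat.card_eq_fintype_card, Fintype.card_fin]) i D
  have key : ∀ r : ℕ, ∀ (ι : Type) [Finite ι], r * M ≤ Nat.card ι → ∀ (i : Fin k) (D : Set (ι → Fin (k + 1))),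
      Ins i D → Part m (β / 2 * (1 - q ^ r) + q ^ r * dn D) D := by
    intro r
    induction r with
    | zero =>
      intro ι _ _ i D _
      refine ⟨Empty, inferInstance, fun e => e.elim, fun e => e.elim, fun e => e.elim, ?_⟩
      simp
    | succ r ih =>
      intro ι _ hι i D hD
      have hM' : M ≤ Nat.card ι := le_trans (by nlinarith) hι
      obtain ⟨ι', hfin, ⟨e⟩, hcard⟩ := split M hM'
      have hι' : r * M ≤ Nat.card ι' := by
        have : (r + 1) * M = r * M + M := by ring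
        omega
      apply part_equiv e
      have := step_sum (D := {x : Fin M ⊕ ι' → Fin (k + 1) | x ∘ e ∈ D}) hβ hins hq hq0 hq1.le ih ι' hι' i
        (fun x => hD (x ∘ e))
      rwa [dn_equiv e] at this
  obtain ⟨r, hr⟩ := exists_pow_lt_of_lt_one (show (0 : ℝ) < β / 2 by positivity) hq1
  refine ⟨r * M, fun ι _ hι i D hD => part_mono (key r ι hι i D hD) ?_⟩
  have h1 : q ^ r * dn D ≤ β / 2 :=
    (mul_le_of_le_one_right (pow_nonneg hq0 r) (dn_le_one D)).trans hr.le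
  have h2 : β / 2 * (1 - q ^ r) ≤ β / 2 :=
    mul_le_of_le_one_right (by positivity) (by linarith [pow_nonneg hq0 r])
  linarith

end

end Pool.Agent.Lib.MP_3efbeb_nt.DH
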