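import Pool.Agent.Lib.MP_3efbeb_nt.DH.Spec

/-!
# MP_3efbeb_nt, DH, module PTI: intersections of insensitive sets
-/

set_option autoImplicit false

namespace Pool.Agent.Lib.MP_3efbeb_nt.DH

open Combinatorics

namespace PTIaux

theorem SC_apply' {α η η' ι : Type} (U : Subspace η α ι) (V : Subspace η' α η) (x : η' → α) :
    SC U V x = U (V x) := by
  funext i
  change ((U.idxFun i).elim Sum.inl V.idxFun).elim id x = (U.idxFun i).elim id (V x)
  cases U.idxFun i <;> rfl

theorem sub_inj' {α η ι : Type} (U : Subspace η α ι) {x y : η → α} (h : U x = U y) : x = y := by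
  funext e
  obtain ⟨i, hi⟩ := U.proper e
  have := congrFun h i
  change (U.idxFun i).elim id x = (U.idxFun i).elim id y at this
  rw [hi] at this
  exact this

theorem rep_sub {k : ℕ} {η ι : Type} (i : Fin k) (U : Subspace η (Fin (k + 1)) ι)
    (x : η → Fin (k + 1)) : rep i (U (rep i x)) = rep i (U x) := by
  funext j
  change (if (U.idxFun j).elim id (rep i x) = Fin.last k then i.castSucc
    else (U.idxFun j).elim id (rep i x)) = (if (U.idxFun j).elim id x = Fin.last k then i.castSucc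
    else (U.idxFun j).elim id x)
  cases U.idxFun j with
  | inl a => rfl
  | inr e =>
    change (if rep i x e = Fin.last k then i.castSucc else rep i x e)
      = (if x e = Fin.last k then i.castSucc else x e)
    by_cases h : x e = Fin.last k
    · have : rep i x e = i.castSucc := if_pos h
      rw [this, if_pos h, if_neg (Fin.castSucc_ne_last i)]
    · have : rep i x e = x e := if_neg h
      rw [this]

theorem ins_preimage' {k : ℕ} {η ι : Type} {i : Fin k} {D : Set (ι → Fin (k + 1))}
    (h : Ins i D) (U : Subspace η (Fin (k + 1)) ι) : Ins i {x | U x ∈ D} := by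
  intro x
  change U (rep i x) ∈ D ↔ U x ∈ D
  rw [← h (U (rep i x)), rep_sub, h (U x)]

end PTIaux

open PTIaux

theorem specPTI (h : SpecPT) : SpecPTI := by
  intro k m r hk hD
  induction r with
  | zero =>
    intro β hβ
    obtain ⟨N, hN⟩ := h k m hk hD β hβ
    refine ⟨N, fun ι _ hι s D _ => ?_⟩
    have : (⋂ t, D t) = Set.univ := by simp
    rw [this]
    exact hN ι hι ⟨0, hk⟩ Set.univ (fun x => by simp)
  | succ r ih =>
    intro β hβ
    obtain ⟨m1, hm1⟩ := ih (β / 2) (by linarith)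
    obtain ⟨N, hN⟩ := h k m1 hk hD (β / 2) (by linarith)
    refine ⟨N, fun ι _ hι s D hI => ?_⟩
    obtain ⟨J, hJ, U, hU1, hU2, hU3⟩ := hN ι hι (s (Fin.last r)) (D (Fin.last r)) (hI _)
    have hV : ∀ j, Part m (β / 2) (⋂ t : Fin r, {x | U j x ∈ D t.castSucc}) := fun j =>
      hm1 (Fin m1) (by simp) (fun t => s t.castSucc) _ (fun t => ins_preimage' (hI _) (U j))
    choose J' hJ' V hV1 hV2 hV3 using hV
    refine ⟨Σ j, J' j, inferInstance, fun q => SC (U q.1) (V q.1 q.2), ?_, ?_, ?_⟩
    · rintro ⟨j, i⟩ x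
      change SC (U j) (V j i) x ∈ ⋂ t, D t
      rw [SC_apply', Set.mem_iInter]
      intro t
      refine Fin.lastCases ?_ (fun t => ?_) t
      · exact hU1 j _
      · exact Set.mem_iInter.1 (hV1 j i x) t
    · rintro ⟨j, i⟩ ⟨j', i'⟩ x x' hx
      change SC (U j) (V j i) x = SC (U j') (V j' i') x' at hx
      rw [SC_apply', SC_apply'] at hx
      obtain rfl := hU2 _ _ _ _ hx
      obtain rfl := hV2 _ _ _ _ _ (sub_inj' _ hx)
      rfl
    · have : Fintype J := Fintype.ofFinite J
      set R : J → Set (Fin m1 → Fin (k + 1)) := fun j =>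
        {x | x ∈ (⋂ t : Fin r, {x | U j x ∈ D t.castSucc}) ∧ ∀ i z, V j i z ≠ x} with hR
      set R1 : Set (ι → Fin (k + 1)) := {y | y ∈ D (Fin.last r) ∧ ∀ j x, U j x ≠ y} with hR1
      have hsub : {y | y ∈ (⋂ t, D t) ∧ ∀ (q : Σ j, J' j) (x : Fin m → Fin (k + 1)),
          SC (U q.1) (V q.1 q.2) x ≠ y} ⊆ R1 ∪ Set.range (fun q : Σ j, R j => U q.1 q.2) := by
        rintro y ⟨hy, hy'⟩
        by_cases hc : ∀ j x, U j x ≠ y
        · exact Or.inl ⟨Set.mem_iInter.1 hy _, hc⟩
        · push Not at hc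
          obtain ⟨j, x, rfl⟩ := hc
          refine Or.inr ⟨⟨j, ⟨x, ?_, ?_⟩⟩, rfl⟩
          · exact Set.mem_iInter.2 fun t => Set.mem_iInter.1 hy _
          · rintro i z rfl
            exact hy' ⟨j, i⟩ z (SC_apply' _ _ _)
      have hK : (0 : ℝ) < ((k + 1 : ℕ) : ℝ) := by positivity
      -- counting
      have c1 : Nat.card (Set.range (fun q : Σ j, R j => U q.1 q.2)) ≤ ∑ j, (R j).ncard := by
        refine (Finite.card_range_le _).trans (le_of_eq ?_)
        rw [Nat.card_sigma]
        rfl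
      have c2 : ∀ j, ((R j).ncard : ℝ) ≤ β / 2 * ((k + 1 : ℕ) : ℝ) ^ m1 := by
        intro j
        have := hV3 j
        unfold dn at this
        rw [div_le_iff₀ (pow_pos hK _), Nat.card_fin] at this
        exact this
      have c3 : (Fintype.card J : ℝ) * ((k + 1 : ℕ) : ℝ) ^ m1 ≤ ((k + 1 : ℕ) : ℝ) ^ Nat.card ι := by
        have hinj : Function.Injective
            (fun q : J × (Fin m1 → Fin (k + 1)) => (U q.1 q.2 : ι → Fin (k + 1))) := by
          rintro ⟨j, x⟩ ⟨j', x'⟩ hx
          change U j x = U j' x' at hx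
          obtain rfl := hU2 _ _ _ _ hx
          rw [sub_inj' _ hx]
        have := Nat.card_le_card_of_injective _ hinj
        rw [Nat.card_prod, Nat.card_fun, Nat.card_fun, Nat.card_eq_fintype_card, Nat.card_fin,
          Nat.card_fin] at this
        exact_mod_cast this
      have c4 : (R1.ncard : ℝ) ≤ β / 2 * ((k + 1 : ℕ) : ℝ) ^ Nat.card ι := by
        have := hU3
        unfold dn at this
        rw [div_le_iff₀ (pow_pos hK _)] at this
        exact this
      unfold dn
      rw [div_le_iff₀ (pow_pos hK _)]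
      have c5 := (Set.ncard_le_ncard hsub (Set.toFinite _)).trans (Set.ncard_union_le _ _)
      have c6 : ((∑ j, (R j).ncard : ℕ) : ℝ)
          ≤ β / 2 * (Fintype.card J * ((k + 1 : ℕ) : ℝ) ^ m1) := by
        push_cast
        calc ∑ j, ((R j).ncard : ℝ) ≤ ∑ _j : J, β / 2 * ((k + 1 : ℕ) : ℝ) ^ m1 :=
              Finset.sum_le_sum fun j _ => c2 j
          _ = β / 2 * (Fintype.card J * ((k + 1 : ℕ) : ℝ) ^ m1) := by
              rw [Finset.sum_const, Finset.card_univ, nsmul_eq_mul]; ring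
          _ = _ := by push_cast; ring
      have c7 : ((Set.range (fun q : Σ j, R j => U q.1 q.2)).ncard : ℝ)
          ≤ β / 2 * ((k + 1 : ℕ) : ℝ) ^ Nat.card ι := by
        calc ((Set.range (fun q : Σ j, R j => U q.1 q.2)).ncard : ℝ)
            ≤ ((∑ j, (R j).ncard : ℕ) : ℝ) := by exact_mod_cast c1
          _ ≤ _ := c6
          _ ≤ _ := mul_le_mul_of_nonneg_left c3 (by linarith)
      have c8 : (({y | y ∈ (⋂ t, D t) ∧ ∀ (q : Σ j, J' j) (x : Fin m → Fin (k + 1)),
          SC (U q.1) (V q.1 q.2) x ≠ y}.ncard : ℕ) : ℝ) ≤ (R1.ncard : ℝ)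
            + ((Set.range (fun q : Σ j, R j => U q.1 q.2)).ncard : ℝ) := by exact_mod_cast c5
      linarith

end Pool.Agent.Lib.MP_3efbeb_nt.DH
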