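import Pool.Agent.Lib.MP_3efbeb_nt.DH.Base

/-!
# MP_3efbeb_nt, DH, module STEP (helper66)
-/

set_option autoImplicit false

namespace Pool.Agent.Lib.MP_3efbeb_nt.DH

open Combinatorics

noncomputable section

namespace STEPm

variable {k : ℕ} {ι : Type} [Finite ι]

/-- if the average is large and all values are at most `δ + ε` then every value is large -/
theorem sec_lower {M : ℕ} (f : (Fin M → Fin (k + 1)) → ℝ) (δ ε : ℝ) (hup : ∀ x, f x ≤ δ + ε) (hav : δ - ε ≤ av f)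
    (x : Fin M → Fin (k + 1)) : δ + ε - 2 * ((k : ℝ) + 1) ^ M * ε ≤ f x := by
  classical
  have hK : (0 : ℝ) < ((k : ℝ) + 1) ^ M := by positivity
  have h1 : av f = (∑ y, f y) / ((k : ℝ) + 1) ^ M := by
    rw [av_eq_sum, Nat.card_eq_fintype_card, Fintype.card_fin]
    push_cast
    rfl
  have h2 : ∑ y, f y ≤ f x + ∑ y ∈ Finset.univ.erase x, (δ + ε) := by
    rw [← Finset.add_sum_erase Finset.univ f (Finset.mem_univ x)]
    gcongr with y _
    exact hup y
  rw [Finset.sum_const, nsmul_eq_mul, Finset.card_erase_of_mem (Finset.mem_univ x), Finset.card_univ,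
    Fintype.card_fun, Fintype.card_fin, Fintype.card_fin] at h2
  have h3 : (((k + 1) ^ M - 1 : ℕ) : ℝ) = ((k : ℝ) + 1) ^ M - 1 := by
    have : 1 ≤ (k + 1) ^ M := Nat.one_le_pow _ _ (by omega)
    rw [Nat.cast_sub this]
    push_cast
    rfl
  rw [h3] at h2
  rw [h1, le_div_iff₀ hK] at hav
  nlinarith

/-- the words without the last letter -/
theorem dn_nolast (m : ℕ) : dn {y : Fin m → Fin (k + 1) | ¬ ∃ j, y j = Fin.last k} ≤ ((k : ℝ) / (k + 1)) ^ m := by
  unfold dn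
  rw [Nat.card_eq_fintype_card, Fintype.card_fin, div_pow]
  push_cast
  apply div_le_div_of_nonneg_right _ (by positivity)
  have h1 : {y : Fin m → Fin (k + 1) | ¬ ∃ j, y j = Fin.last k} ⊆
      (fun x : Fin m → Fin k => Fin.castSucc ∘ x) '' Set.univ := by
    intro y hy
    have hy' : ∀ j, y j ≠ Fin.last k := fun j h => hy ⟨j, h⟩
    refine ⟨fun j => (y j).castPred (hy' j), trivial, ?_⟩
    ext j
    simp
  have h2 := (Set.ncard_le_ncard h1 (Set.toFinite _)).trans (Set.ncard_image_le (Set.toFinite _))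
  rw [Set.ncard_univ, card_cube, Nat.card_eq_fintype_card, Fintype.card_fin] at h2
  exact_mod_cast h2

end STEPm

open STEPm

theorem specSTEP (hGOOD : SpecGOOD) (hONEW : SpecONEW) : SpecSTEP := by
  intro k δ hk hD hδ hup
  classical
  have hk1 : 1 ≤ k + 1 := by omega
  by_cases hδ1 : 1 < δ
  · refine ⟨(1 + δ) / 2, by linarith, 0, fun ι _ _ A hA => ?_⟩
    have := dn_le_one A
    linarith
  push Not at hδ1
  obtain ⟨η, m1, hη, hη1, hG⟩ := hGOOD k (δ / 2) hk hD (by linarith)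
  set θ : ℝ := δ + δ * η / 2 with hθ
  set β : ℝ := δ * η / (4 * (k + 4)) with hβ
  have hkR : (0 : ℝ) ≤ k := by positivity
  have hδη : 0 < δ * η := mul_pos hδ hη
  have hβ0 : 0 < β := by rw [hβ]; positivity
  have hβ' : β * (4 * (k + 4)) = δ * η := by rw [hβ]; field_simp
  have hβδ : β ≤ δ / 2 := by nlinarith
  have hβ1 : β ≤ 1 := by linarith
  have hθδ : δ < θ := by rw [hθ]; linarith
  have hθ2 : θ ≤ 2 := by rw [hθ]; nlinarith
  obtain ⟨m0, hm0⟩ := hONEW k β θ hk hD hβ0 (by linarith) (hup θ hθδ)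
  -- m with `(k/(k+1))^m ≤ β`
  have hlim : ∃ m2 : ℕ, ∀ m ≥ m2, ((k : ℝ) / (k + 1)) ^ m ≤ β := by
    have h1 : (k : ℝ) / (k + 1) < 1 := by
      rw [div_lt_one (by positivity)]
      linarith
    have h2 := tendsto_pow_atTop_nhds_zero_of_lt_one (show (0 : ℝ) ≤ (k : ℝ) / (k + 1) by positivity) h1
    have h3 := h2.eventually (gt_mem_nhds hβ0)
    obtain ⟨m2, hm2⟩ := Filter.eventually_atTop.1 h3
    exact ⟨m2, fun m hm => (hm2 m hm).le⟩
  obtain ⟨m2, hm2⟩ := hlim
  set m : ℕ := max m0 (max m1 m2) with hm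
  have hmm0 : m0 ≤ m := le_max_left _ _
  have hmm1 : m1 ≤ m := (le_max_left _ _).trans (le_max_right _ _)
  have hmm2 : m2 ≤ m := (le_max_right _ _).trans (le_max_right _ _)
  obtain ⟨M, hM⟩ := hG m hmm1
  have hK : (0 : ℝ) < ((k : ℝ) + 1) ^ M := by positivity
  set ε : ℝ := β / (2 * ((k : ℝ) + 1) ^ M) with hε
  have hε0 : 0 < ε := by rw [hε]; positivity
  have hε' : 2 * ((k : ℝ) + 1) ^ M * ε = β := by rw [hε]; field_simp
  obtain ⟨N2, hN2⟩ := hup (δ + ε) (by linarith)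
  refine ⟨δ - ε, by linarith, M + N2, ?_⟩
  intro ι _ hι A hA
  by_contra hfree
  obtain ⟨ι', _, ⟨e⟩, hcard⟩ := split (ι := ι) M (by omega)
  have hι' : N2 ≤ Nat.card ι' := by omega
  -- transport
  set A' : Set (Fin M ⊕ ι' → Fin (k + 1)) := {x | x ∘ e ∈ A} with hA'
  have hdn : δ - ε ≤ dn A' := by rw [hA', dn_equiv e A]; exact hA
  have hfree' : ¬ ∃ l : Line (Fin (k + 1)) (Fin M ⊕ ι'), ∀ a, l a ∈ A' := by
    rintro ⟨l, hl⟩
    exact hfree ⟨LE e l, fun a => hl a⟩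
  have hsecup : ∀ x : Fin M → Fin (k + 1), dn {w : ι' → Fin (k + 1) | Sum.elim x w ∈ A'} ≤ δ + ε := by
    intro x
    by_contra hc
    push Not at hc
    obtain ⟨l, hl⟩ := hN2 ι' hι' _ hc.le
    refine hfree' ⟨l.vertical x, fun a => ?_⟩
    rw [Line.vertical_apply]
    exact hl a
  have hseclow : ∀ x : Fin M → Fin (k + 1), δ - β ≤ dn {w : ι' → Fin (k + 1) | Sum.elim x w ∈ A'} := by
    intro x
    have h1 := sec_lower (fun x : Fin M → Fin (k + 1) => dn {w : ι' → Fin (k + 1) | Sum.elim x w ∈ A'}) δ ε hsecup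
      (by rw [← dn_prod]; exact hdn) x
    rw [hε'] at h1
    linarith
  obtain ⟨U, hU⟩ := hM ι' A' fun x => by linarith [hseclow x]
  -- one `w`
  have hone : ∀ w : ι' → Fin (k + 1), dn {y : Fin m → Fin (k + 1) | Sum.elim (U y) w ∈ A'} ≤
      (k + 1) * β + θ * (1 - dn {y : Fin m → Fin (k + 1) | ∀ i : Fin k, Sum.elim (U (rep i y)) w ∈ A'}) := by
    intro w
    apply hm0 m hmm0
    rintro ⟨l, hl⟩
    refine hfree' ⟨(LC U l).horizontal w, fun a => ?_⟩
    rw [Line.horizontal_apply, LC_apply]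
    exact hl a
  have hav := av_mono hone
  have e1 := av_swap (fun (y : Fin m → Fin (k + 1)) (w : ι' → Fin (k + 1)) => Sum.elim (U y) w ∈ A')
  have e2 := av_swap (fun (y : Fin m → Fin (k + 1)) (w : ι' → Fin (k + 1)) =>
    ∀ i : Fin k, Sum.elim (U (rep i y)) w ∈ A')
  rw [av_add, av_const hk1, av_mul_left, av_sub, av_const hk1, ← e1, ← e2] at hav
  have h1 : δ - β ≤ av (fun y : Fin m → Fin (k + 1) => dn {w : ι' → Fin (k + 1) | Sum.elim (U y) w ∈ A'}) :=
    const_le_av hk1 fun y => hseclow (U y)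
  have h2 : η - β ≤ av (fun y : Fin m → Fin (k + 1) =>
      dn {w : ι' → Fin (k + 1) | ∀ i : Fin k, Sum.elim (U (rep i y)) w ∈ A'}) := by
    have h5 := (dn_nolast (k := k) m).trans (hm2 m hmm2)
    obtain ⟨S, hS⟩ : ∃ S : Set (Fin m → Fin (k + 1)), S = {y | ¬ ∃ j, y j = Fin.last k} := ⟨_, rfl⟩
    rw [← hS] at h5
    have h3 : ∀ y : Fin m → Fin (k + 1), η * (1 - if y ∈ S then (1 : ℝ) else 0) ≤
        dn {w : ι' → Fin (k + 1) | ∀ i : Fin k, Sum.elim (U (rep i y)) w ∈ A'} := by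
      intro y
      by_cases hy : ∃ j, y j = Fin.last k
      · have : y ∉ S := by rw [hS]; exact fun h => h hy
        rw [if_neg this, sub_zero, mul_one]
        exact hU y hy
      · have : y ∈ S := by rw [hS]; exact hy
        rw [if_pos this, sub_self, mul_zero]
        exact dn_nonneg _
    have h4 := av_mono h3
    rw [av_mul_left, av_sub, av_const hk1, ← dn_eq_av] at h4
    nlinarith
  have hθ0 : 0 ≤ θ := by linarith
  have h66 : 1 - av (fun y : Fin m → Fin (k + 1) =>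
      dn {w : ι' → Fin (k + 1) | ∀ i : Fin k, Sum.elim (U (rep i y)) w ∈ A'}) ≤ 1 - (η - β) :=
    sub_le_sub_left h2 1
  have h6 := mul_le_mul_of_nonneg_left h66 hθ0
  have h7 : δ - β ≤ (k + 1) * β + θ * (1 - (η - β)) := by linarith
  have h8 : θ * (1 - (η - β)) ≤ δ - δ * η / 2 + 2 * β := by
    have : θ * (1 - (η - β)) = δ + δ * η / 2 - θ * η + θ * β := by rw [hθ]; ring
    rw [this]
    have h9 : θ * β ≤ 2 * β := mul_le_mul_of_nonneg_right hθ2 hβ0.le
    have h10 : δ * η ≤ θ * η := mul_le_mul_of_nonneg_right hθδ.le hη.le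
    linarith
  nlinarith

end

end Pool.Agent.Lib.MP_3efbeb_nt.DH
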