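import Pool.Agent.Lib.MP_3efbeb_nt.DH.Base

/-!
# MP_3efbeb_nt, DH, module SZ (helper91): Szemeredi's theorem for finite patterns, from density Hales-Jewett
-/

set_option autoImplicit false

namespace Pool.Agent.Lib.MP_3efbeb_nt.DH

open Combinatorics Finset

noncomputable section

namespace SZ

/-- sum of the letters -/
def S {k N : ℕ} (x : Fin N → Fin k) : ℕ := ∑ j, (x j : ℕ)

theorem S_le {k N : ℕ} (x : Fin N → Fin k) : S x ≤ k * N := by
  unfold S
  calc ∑ j, (x j : ℕ) ≤ ∑ _j : Fin N, k := Finset.sum_le_sum fun j _ => (x j).isLt.le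
    _ = k * N := by rw [Finset.sum_const, Finset.card_univ, Fintype.card_fin, smul_eq_mul, mul_comm]

/-- the letters of a line sum to an arithmetic progression -/
theorem S_line {k N : ℕ} (l : Line (Fin k) (Fin N)) : ∃ t e : ℕ, 1 ≤ e ∧ ∀ a : Fin k, S (l a) = t + e * (a : ℕ) := by
  classical
  refine ⟨∑ j, (l.idxFun j).elim 0 (fun b => (b : ℕ)), (univ.filter fun j => l.idxFun j = none).card, ?_, ?_⟩
  · obtain ⟨j, hj⟩ := l.proper
    exact Finset.card_pos.2 ⟨j, Finset.mem_filter.2 ⟨Finset.mem_univ _, hj⟩⟩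
  · intro a
    have h1 : ∀ j, ((l a j : Fin k) : ℕ) = (l.idxFun j).elim 0 (fun b => (b : ℕ)) +
        (if l.idxFun j = none then (a : ℕ) else 0) := by
      intro j
      have h0 : l a j = (l.idxFun j).getD a := rfl
      rw [h0]
      cases l.idxFun j with
      | none => simp
      | some b => simp
    unfold S
    rw [Finset.sum_congr rfl fun j _ => h1 j, Finset.sum_add_distrib, ← Finset.sum_filter, Finset.sum_const, smul_eq_mul]

/-- translates of `A` -/
theorem shift_card {A : Finset ℕ} {L K s : ℕ} (hA : A ⊆ range L) (hs : s ≤ K) (hK : K ≤ L) :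
    A.card ≤ ((range (L - K)).filter fun u => u + s ∈ A).card + K := by
  classical
  have hsub : A ⊆ (((range (L - K)).filter fun u => u + s ∈ A).image (fun u => u + s)) ∪
      (range s ∪ Finset.Ico (s + (L - K)) L) := by
    intro a ha
    have haL : a < L := mem_range.1 (hA ha)
    by_cases h1 : a < s
    · exact mem_union_right _ (mem_union_left _ (mem_range.2 h1))
    by_cases h2 : a < s + (L - K)
    · refine mem_union_left _ (mem_image.2 ⟨a - s, mem_filter.2 ⟨mem_range.2 (by omega), ?_⟩, by omega⟩)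
      rwa [Nat.sub_add_cancel (by omega)]
    · exact mem_union_right _ (mem_union_right _ (mem_Ico.2 ⟨by omega, haL⟩))
  have h := card_le_card hsub
  have h1 := card_union_le (((range (L - K)).filter fun u => u + s ∈ A).image (fun u => u + s))
    (range s ∪ Finset.Ico (s + (L - K)) L)
  have h2 := card_union_le (range s) (Finset.Ico (s + (L - K)) L)
  have h3 : (((range (L - K)).filter fun u => u + s ∈ A).image (fun u => u + s)).card ≤
    ((range (L - K)).filter fun u => u + s ∈ A).card := card_image_le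
  rw [card_range, Nat.card_Ico] at h2
  omega

end SZ

open SZ in
/-- SZ from DHJ -/
theorem specSZ (hDHJ : SpecDHJ) : SpecSZ := by
  classical
  intro δ H hδ
  obtain ⟨k, hk1, hkH⟩ : ∃ k : ℕ, 1 ≤ k ∧ ∀ h ∈ H, h < k :=
    ⟨H.sup id + 1, by omega, fun h hh => Nat.lt_succ_of_le (Finset.le_sup (f := id) hh)⟩
  obtain ⟨N, hN⟩ := hDHJ k hk1 (δ / 2) (by positivity)
  refine ⟨⌈2 * ((k * N : ℕ) : ℝ) / δ⌉₊ + k * N + 1, fun L hL A hA hAc => ?_⟩
  have hLr : 2 * ((k * N : ℕ) : ℝ) / δ ≤ L := by
    have h1 := Nat.le_ceil (2 * ((k * N : ℕ) : ℝ) / δ)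
    have h2 : ⌈2 * ((k * N : ℕ) : ℝ) / δ⌉₊ ≤ L := le_trans (by omega) hL
    exact h1.trans (Nat.cast_le.2 h2)
  have hLr' : ((k * N : ℕ) : ℝ) ≤ δ / 2 * L := by
    rw [div_le_iff₀ hδ] at hLr
    linarith
  have hKL : k * N < L := by omega
  have hkN : (0 : ℝ) < (k : ℝ) ^ N := pow_pos_k hk1 N
  obtain ⟨u, hu, hux⟩ : ∃ u ∈ range (L - k * N), δ / 2 * (k : ℝ) ^ N ≤
      (((univ : Finset (Fin N → Fin k)).filter fun x => u + S x ∈ A).card : ℝ) := by
    apply Finset.exists_le_of_sum_le (f := fun _ => δ / 2 * (k : ℝ) ^ N)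
      (g := fun u => (((univ : Finset (Fin N → Fin k)).filter fun x => u + S x ∈ A).card : ℝ))
    · exact ⟨0, mem_range.2 (by omega)⟩
    · have hswap : ∑ u ∈ range (L - k * N), (((univ : Finset (Fin N → Fin k)).filter fun x => u + S x ∈ A).card : ℝ) =
          ∑ x : Fin N → Fin k, (((range (L - k * N)).filter fun u => u + S x ∈ A).card : ℝ) := by
        have := Finset.sum_card_bipartiteAbove_eq_sum_card_bipartiteBelow
          (s := range (L - k * N)) (t := (univ : Finset (Fin N → Fin k))) (fun u x => u + S x ∈ A)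
        unfold Finset.bipartiteAbove Finset.bipartiteBelow at this
        exact_mod_cast this
      rw [hswap]
      have h1 : ∀ x : Fin N → Fin k, (A.card : ℝ) - ((k * N : ℕ) : ℝ) ≤
          (((range (L - k * N)).filter fun u => u + S x ∈ A).card : ℝ) := by
        intro x
        have := shift_card hA (S_le x) hKL.le
        have h2 : (A.card : ℝ) ≤ (((range (L - k * N)).filter fun u => u + S x ∈ A).card : ℝ) + ((k * N : ℕ) : ℝ) := by
          exact_mod_cast this
        linarith
      have h2 : ∑ _x : Fin N → Fin k, ((A.card : ℝ) - ((k * N : ℕ) : ℝ)) ≤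
          ∑ x : Fin N → Fin k, (((range (L - k * N)).filter fun u => u + S x ∈ A).card : ℝ) :=
        Finset.sum_le_sum fun x _ => h1 x
      refine le_trans ?_ h2
      rw [Finset.sum_const, Finset.sum_const, card_range, nsmul_eq_mul, nsmul_eq_mul, Finset.card_univ,
        Fintype.card_fun, Fintype.card_fin, Fintype.card_fin, Nat.cast_sub hKL.le]
      push_cast at hLr' ⊢
      have h3 : ((L : ℝ) - k * N) * (δ / 2) ≤ (A.card : ℝ) - k * N := by
        have h4 : (0 : ℝ) ≤ (k * N : ℝ) * (δ / 2) := by positivity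
        nlinarith
      calc ((L : ℝ) - k * N) * (δ / 2 * (k : ℝ) ^ N) = (k : ℝ) ^ N * (((L : ℝ) - k * N) * (δ / 2)) := by ring
        _ ≤ (k : ℝ) ^ N * ((A.card : ℝ) - k * N) := mul_le_mul_of_nonneg_left h3 hkN.le
  have hdn : δ / 2 ≤ dn {x : Fin N → Fin k | u + S x ∈ A} := by
    have e1 : ({x : Fin N → Fin k | u + S x ∈ A} : Set (Fin N → Fin k)) =
        (((univ : Finset (Fin N → Fin k)).filter fun x => u + S x ∈ A : Finset (Fin N → Fin k)) : Set (Fin N → Fin k)) := by
      ext x
      simp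
    unfold dn
    rw [e1, Set.ncard_coe_finset, Nat.card_eq_fintype_card, Fintype.card_fin, le_div_iff₀ hkN]
    exact hux
  obtain ⟨l, hl⟩ := hN (Fin N) (by rw [Nat.card_eq_fintype_card, Fintype.card_fin]) _ hdn
  obtain ⟨t, e, he, hS⟩ := S_line l
  refine ⟨u + t, e, he, fun h hh => ?_⟩
  have h1 : u + S (l ⟨h, hkH h hh⟩) ∈ A := hl ⟨h, hkH h hh⟩
  rw [hS] at h1
  rwa [← add_assoc] at h1

end

end Pool.Agent.Lib.MP_3efbeb_nt.DH
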