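import Pool.Agent.Lib.MP_3efbeb_nt.DH.G
import Pool.Agent.Lib.MP_3efbeb_nt.DH.FU
import Pool.Agent.Lib.MP_3efbeb_nt.DH.GR
import Pool.Agent.Lib.MP_3efbeb_nt.DH.MD
import Pool.Agent.Lib.MP_3efbeb_nt.DH.INS
import Pool.Agent.Lib.MP_3efbeb_nt.DH.PT
import Pool.Agent.Lib.MP_3efbeb_nt.DH.PTI
import Pool.Agent.Lib.MP_3efbeb_nt.DH.PAV
import Pool.Agent.Lib.MP_3efbeb_nt.DH.ONEW
import Pool.Agent.Lib.MP_3efbeb_nt.DH.GOOD
import Pool.Agent.Lib.MP_3efbeb_nt.DH.STEP
import Pool.Agent.Lib.MP_3efbeb_nt.DH.DHJ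
import Pool.Agent.Lib.MP_3efbeb_nt.DH.SZ

/-!
# Density Hales-Jewett and Szemeredi's theorem

Everything here is known mathematics (Furstenberg-Katznelson 1991; the proof follows
Dodos-Kanellopoulos-Tyros 2013, with the infimum argument in place of bounds); it is proved here from
Mathlib's Hales-Jewett theorem because Mathlib has neither theorem.
-/

set_option autoImplicit false

namespace Pool.Agent.Lib.MP_3efbeb_nt.DH

open Combinatorics

/-- The Graham-Rothschild theorem for lines. -/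
theorem graham_rothschild : SpecGR := specGR specG specFU

/-- **Density Hales-Jewett**, every alphabet. -/
theorem density_hales_jewett : SpecDHJ :=
  specDHJ (specSTEP (specGOOD graham_rothschild) (specONEW (specPTI (specPT (specINS specMD))) specPAV))

/-- **Density Hales-Jewett** for lines, spelled out. -/
theorem density_hales_jewett' (k : ℕ) (hk : 1 ≤ k) (δ : ℝ) (hδ : 0 < δ) :
    ∃ N : ℕ, ∀ (ι : Type) [Finite ι], N ≤ Nat.card ι → ∀ A : Set (ι → Fin k),
      δ * (k : ℝ) ^ Nat.card ι ≤ A.ncard → ∃ l : Line (Fin k) ι, ∀ a, l a ∈ A := by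
  obtain ⟨N, hN⟩ := density_hales_jewett k hk δ hδ
  refine ⟨N, fun ι _ hι A hA => hN ι hι A ?_⟩
  unfold dn
  rw [le_div_iff₀ (pow_pos_k hk _)]
  exact hA

/-- **Multidimensional density Hales-Jewett**. -/
theorem density_hales_jewett_subspace (k m : ℕ) (hk : 1 ≤ k) (δ : ℝ) (hδ : 0 < δ) :
    ∃ N : ℕ, ∀ (ι : Type) [Finite ι], N ≤ Nat.card ι → ∀ A : Set (ι → Fin k), δ ≤ dn A →
      ∃ U : Subspace (Fin m) (Fin k) ι, ∀ x, U x ∈ A :=
  specMD k m hk (density_hales_jewett k hk) δ hδ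

/-- **Szemeredi's theorem** for finite patterns. -/
theorem szemeredi : SpecSZ := specSZ density_hales_jewett

end Pool.Agent.Lib.MP_3efbeb_nt.DH
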