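import Pool.Agent.Lib.MP_3efbeb_nt.DH.Spec

/-!
# MP_3efbeb_nt, DH: lemmas on densities, averages, lines and subspaces (helper66)
-/

set_option autoImplicit false

namespace Pool.Agent.Lib.MP_3efbeb_nt.DH

open Combinatorics

noncomputable section

variable {k : ℕ} {ι : Type} [Finite ι]

/-! ## Density -/

theorem dn_nonneg (A : Set (ι → Fin k)) : 0 ≤ dn A := by unfold dn; positivity

theorem card_cube (k : ℕ) (ι : Type) [Finite ι] : Nat.card (ι → Fin k) = k ^ Nat.card ι := by
  rw [Nat.card_fun, Nat.card_eq_fintype_card, Fintype.card_fin]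

theorem dn_mul (A : Set (ι → Fin k)) : dn A * (k : ℝ) ^ Nat.card ι = A.ncard := by
  unfold dn
  by_cases h : (k : ℝ) ^ Nat.card ι = 0
  · have h2 : k ^ Nat.card ι = 0 := by exact_mod_cast h
    have h3 : Nat.card (ι → Fin k) = 0 := by rw [card_cube, h2]
    have h4 : A.ncard ≤ Nat.card (ι → Fin k) := Set.ncard_le_card A
    have h5 : A.ncard = 0 := by omega
    rw [h5, h]; simp
  · field_simp

theorem dn_le_one (A : Set (ι → Fin k)) : dn A ≤ 1 := by
  unfold dn
  apply div_le_one_of_le₀ _ (by positivity)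
  have h4 : A.ncard ≤ Nat.card (ι → Fin k) := Set.ncard_le_card A
  rw [card_cube] at h4
  exact_mod_cast h4

theorem dn_mono {A B : Set (ι → Fin k)} (h : A ⊆ B) : dn A ≤ dn B := by
  unfold dn
  apply div_le_div_of_nonneg_right _ (by positivity)
  exact_mod_cast Set.ncard_le_ncard h (Set.toFinite B)

theorem dn_empty : dn (∅ : Set (ι → Fin k)) = 0 := by unfold dn; simp

theorem pow_pos_k (hk : 1 ≤ k) (n : ℕ) : (0 : ℝ) < (k : ℝ) ^ n := by
  have : (0 : ℝ) < k := by exact_mod_cast hk
  positivity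

theorem dn_univ (hk : 1 ≤ k) : dn (Set.univ : Set (ι → Fin k)) = 1 := by
  unfold dn
  rw [Set.ncard_univ, card_cube]
  have := pow_pos_k hk (Nat.card ι)
  push_cast
  exact div_self this.ne'

theorem dn_union_le (A B : Set (ι → Fin k)) : dn (A ∪ B) ≤ dn A + dn B := by
  unfold dn
  rw [← add_div]
  apply div_le_div_of_nonneg_right _ (by positivity)
  exact_mod_cast Set.ncard_union_le A B

theorem dn_disj {A B : Set (ι → Fin k)} (h : Disjoint A B) : dn (A ∪ B) = dn A + dn B := by
  unfold dn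
  rw [← add_div, Set.ncard_union_eq h (Set.toFinite A) (Set.toFinite B)]
  push_cast
  rfl

theorem dn_compl (hk : 1 ≤ k) (A : Set (ι → Fin k)) : dn Aᶜ = 1 - dn A := by
  have h := dn_disj (disjoint_compl_right (a := A))
  rw [Set.union_compl_self, dn_univ hk] at h
  linarith

theorem dn_inter_add_diff (A B : Set (ι → Fin k)) : dn A = dn (A ∩ B) + dn (A \ B) := by
  rw [← dn_disj, Set.inter_union_sdiff]
  exact Set.disjoint_sdiff_inter.symm

/-! ## Averages -/

theorem av_eq_sum [Fintype (ι → Fin k)] (f : (ι → Fin k) → ℝ) : av f = (∑ x, f x) / (k : ℝ) ^ Nat.card ι := by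
  unfold av
  rw [finsum_eq_sum_of_fintype]

theorem av_const (hk : 1 ≤ k) (c : ℝ) : av (fun _ : ι → Fin k => c) = c := by
  classical
  have := Fintype.ofFinite (ι → Fin k)
  rw [av_eq_sum, Finset.sum_const, nsmul_eq_mul, Finset.card_univ, ← Nat.card_eq_fintype_card, card_cube]
  have := pow_pos_k hk (Nat.card ι)
  push_cast
  field_simp

theorem av_mono {f g : (ι → Fin k) → ℝ} (h : ∀ x, f x ≤ g x) : av f ≤ av g := by
  classical
  have := Fintype.ofFinite (ι → Fin k)
  rw [av_eq_sum, av_eq_sum]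
  apply div_le_div_of_nonneg_right _ (by positivity)
  exact Finset.sum_le_sum fun x _ => h x

theorem av_add (f g : (ι → Fin k) → ℝ) : av (fun x => f x + g x) = av f + av g := by
  classical
  have := Fintype.ofFinite (ι → Fin k)
  rw [av_eq_sum, av_eq_sum, av_eq_sum, Finset.sum_add_distrib, add_div]

theorem av_sub (f g : (ι → Fin k) → ℝ) : av (fun x => f x - g x) = av f - av g := by
  classical
  have := Fintype.ofFinite (ι → Fin k)
  rw [av_eq_sum, av_eq_sum, av_eq_sum, Finset.sum_sub_distrib, sub_div]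

theorem av_mul_left (c : ℝ) (f : (ι → Fin k) → ℝ) : av (fun x => c * f x) = c * av f := by
  classical
  have := Fintype.ofFinite (ι → Fin k)
  rw [av_eq_sum, av_eq_sum, ← Finset.mul_sum, mul_div_assoc]

theorem av_nonneg {f : (ι → Fin k) → ℝ} (h : ∀ x, 0 ≤ f x) : 0 ≤ av f := by
  classical
  have := Fintype.ofFinite (ι → Fin k)
  rw [av_eq_sum]
  have : 0 ≤ ∑ x, f x := Finset.sum_nonneg fun x _ => h x
  positivity

theorem av_le_const (hk : 1 ≤ k) {f : (ι → Fin k) → ℝ} {c : ℝ} (h : ∀ x, f x ≤ c) : av f ≤ c := by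
  rw [← av_const (ι := ι) hk c]
  exact av_mono h

theorem const_le_av (hk : 1 ≤ k) {f : (ι → Fin k) → ℝ} {c : ℝ} (h : ∀ x, c ≤ f x) : c ≤ av f := by
  rw [← av_const (ι := ι) hk c]
  exact av_mono h

theorem av_le_one (hk : 1 ≤ k) {f : (ι → Fin k) → ℝ} (h : ∀ x, f x ≤ 1) : av f ≤ 1 := av_le_const hk h

theorem exists_av_le (hk : 1 ≤ k) (f : (ι → Fin k) → ℝ) : ∃ x, av f ≤ f x := by
  classical
  have := Fintype.ofFinite (ι → Fin k)
  have : Nonempty (Fin k) := ⟨⟨0, hk⟩⟩
  by_contra hcon
  push Not at hcon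
  have h1 : ∑ x, f x < ∑ x : ι → Fin k, av f := Finset.sum_lt_sum_of_nonempty Finset.univ_nonempty fun x _ => hcon x
  have h2 : av (fun _ : ι → Fin k => av f) = av f := av_const hk _
  rw [av_eq_sum] at h2
  have h3 : av f = (∑ x, f x) / (k : ℝ) ^ Nat.card ι := av_eq_sum f
  have h4 := pow_pos_k hk (Nat.card ι)
  have h5 : (∑ x, f x) / (k : ℝ) ^ Nat.card ι < (∑ x : ι → Fin k, av f) / (k : ℝ) ^ Nat.card ι :=
    div_lt_div_of_pos_right h1 h4
  linarith

open scoped Classical in
theorem dn_eq_av (A : Set (ι → Fin k)) : dn A = av (fun x => if x ∈ A then (1 : ℝ) else 0) := by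
  have := Fintype.ofFinite (ι → Fin k)
  rw [av_eq_sum, dn, Finset.sum_ite, Finset.sum_const_zero, add_zero, Finset.sum_const, nsmul_eq_mul, mul_one,
    Set.ncard_eq_toFinset_card' A]
  congr 3
  ext x
  simp

/-- swapping two averages -/
theorem av_swap2 {k' : ℕ} {ι' : Type} [Finite ι'] (f : (ι → Fin k) → (ι' → Fin k') → ℝ) :
    av (fun x => av (fun w => f x w)) = av (fun w => av (fun x => f x w)) := by
  classical
  have := Fintype.ofFinite (ι → Fin k)
  have := Fintype.ofFinite (ι' → Fin k')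
  simp only [av_eq_sum]
  rw [← Finset.sum_div, ← Finset.sum_div, Finset.sum_comm, div_div, div_div, mul_comm]

theorem av_swap {k' : ℕ} {ι' : Type} [Finite ι'] (R : (ι → Fin k) → (ι' → Fin k') → Prop) :
    av (fun x => dn {w | R x w}) = av (fun w => dn {x | R x w}) := by
  classical
  have h1 : ∀ x, dn {w | R x w} = av (fun w => if R x w then (1 : ℝ) else 0) := by
    intro x
    rw [dn_eq_av]
    rfl
  have h2 : ∀ w, dn {x | R x w} = av (fun x => if R x w then (1 : ℝ) else 0) := by
    intro w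
    rw [dn_eq_av]
    rfl
  simp only [h1, h2]
  exact av_swap2 _

theorem av_prod {ι' : Type} [Finite ι'] (f : (ι ⊕ ι' → Fin k) → ℝ) :
    av f = av (fun x : ι → Fin k => av (fun w : ι' → Fin k => f (Sum.elim x w))) := by
  classical
  have := Fintype.ofFinite (ι → Fin k)
  have := Fintype.ofFinite (ι' → Fin k)
  have := Fintype.ofFinite (ι ⊕ ι' → Fin k)
  simp only [av_eq_sum]
  rw [← Finset.sum_div, div_div, Nat.card_sum, pow_add, mul_comm]
  congr 1
  · rw [← Fintype.sum_prod_type']
    symm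
    apply Fintype.sum_equiv (Equiv.sumArrowEquivProdArrow ι ι' (Fin k)).symm
    rintro ⟨x, w⟩
    rfl

theorem dn_prod {ι' : Type} [Finite ι'] (A : Set (ι ⊕ ι' → Fin k)) :
    dn A = av (fun x : ι → Fin k => dn {w : ι' → Fin k | Sum.elim x w ∈ A}) := by
  classical
  rw [dn_eq_av, av_prod]
  congr 1
  ext x
  rw [dn_eq_av]
  rfl

theorem dn_prod' {ι' : Type} [Finite ι'] (A : Set (ι ⊕ ι' → Fin k)) :
    dn A = av (fun w : ι' → Fin k => dn {x : ι → Fin k | Sum.elim x w ∈ A}) := by
  rw [dn_prod, av_swap]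

theorem markov (hk : 1 ≤ k) {f : (ι → Fin k) → ℝ} {δ : ℝ} (h0 : 0 ≤ δ) (h : δ ≤ av f) (h1 : ∀ x, f x ≤ 1) :
    δ / 2 ≤ dn {x | δ / 2 ≤ f x} := by
  classical
  have h2 : av f ≤ av (fun x => δ / 2 + (if x ∈ {x | δ / 2 ≤ f x} then (1 : ℝ) else 0)) := by
    apply av_mono
    intro x
    by_cases hx : δ / 2 ≤ f x
    · have : x ∈ {x | δ / 2 ≤ f x} := hx
      rw [if_pos this]
      linarith [h1 x]
    · have : x ∉ {x | δ / 2 ≤ f x} := hx
      rw [if_neg this]
      push Not at hx
      linarith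
  rw [av_add, av_const hk, ← dn_eq_av] at h2
  linarith

theorem pigeon {κ : Type} [Finite κ] [Nonempty κ] (W : Set (ι → Fin k)) (g : (ι → Fin k) → κ) :
    ∃ v, dn W ≤ Nat.card κ * dn {w | w ∈ W ∧ g w = v} := by
  classical
  have := Fintype.ofFinite κ
  have := Fintype.ofFinite (ι → Fin k)
  by_contra hcon
  push Not at hcon
  have h1 : dn W = ∑ v : κ, dn {w | w ∈ W ∧ g w = v} := by
    have h2 : ∀ v, dn {w | w ∈ W ∧ g w = v} = (∑ w, if w ∈ W ∧ g w = v then (1 : ℝ) else 0) / (k : ℝ) ^ Nat.card ι := by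
      intro v
      rw [dn_eq_av, av_eq_sum]
      congr 1
      apply Finset.sum_congr rfl
      intro w _
      by_cases h : w ∈ W ∧ g w = v
      · rw [if_pos (show w ∈ {w | w ∈ W ∧ g w = v} from h), if_pos h]
      · rw [if_neg (show w ∉ {w | w ∈ W ∧ g w = v} from h), if_neg h]
    rw [Finset.sum_congr rfl fun v _ => h2 v, ← Finset.sum_div, Finset.sum_comm, dn_eq_av, av_eq_sum]
    congr 1
    apply Finset.sum_congr rfl
    intro w _
    by_cases hw : w ∈ W
    · simp [hw]
    · simp [hw]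
  have h3 : ∑ v : κ, (Nat.card κ : ℝ) * dn {w | w ∈ W ∧ g w = v} < ∑ v : κ, dn W :=
    Finset.sum_lt_sum_of_nonempty Finset.univ_nonempty fun v _ => hcon v
  rw [← Finset.mul_sum, ← h1, Finset.sum_const, nsmul_eq_mul, Finset.card_univ, ← Nat.card_eq_fintype_card] at h3
  exact lt_irrefl _ h3

theorem dn_iUnion {J : Type} [Fintype J] (A : J → Set (ι → Fin k)) (h : ∀ j j', j ≠ j' → Disjoint (A j) (A j')) :
    dn (⋃ j, A j) = ∑ j, dn (A j) := by
  classical
  have := Fintype.ofFinite (ι → Fin k)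
  simp only [dn_eq_av, av_eq_sum]
  rw [← Finset.sum_div, Finset.sum_comm]
  congr 1
  apply Finset.sum_congr rfl
  intro x _
  by_cases hx : ∃ j, x ∈ A j
  · obtain ⟨j, hj⟩ := hx
    rw [if_pos (Set.mem_iUnion.2 ⟨j, hj⟩), Finset.sum_eq_single j]
    · rw [if_pos hj]
    · intro j' _ hne
      rw [if_neg]
      intro hj'
      exact Set.disjoint_left.1 (h j' j hne) hj' hj
    · intro h'
      exact absurd (Finset.mem_univ j) h'
  · rw [if_neg (fun h' => hx (Set.mem_iUnion.1 h')), Finset.sum_eq_zero]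
    intro j _
    rw [if_neg (fun h' => hx ⟨j, h'⟩)]

theorem dn_iUnion_le {J : Type} [Fintype J] (A : J → Set (ι → Fin k)) : dn (⋃ j, A j) ≤ ∑ j, dn (A j) := by
  classical
  have := Fintype.ofFinite (ι → Fin k)
  simp only [dn_eq_av, av_eq_sum]
  rw [← Finset.sum_div, Finset.sum_comm]
  apply div_le_div_of_nonneg_right _ (by positivity)
  apply Finset.sum_le_sum
  intro x _
  split_ifs with hx
  · obtain ⟨j, hj⟩ := Set.mem_iUnion.1 hx
    have h1 : (1 : ℝ) = if x ∈ A j then (1 : ℝ) else 0 := by rw [if_pos hj]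
    exact h1.le.trans (Finset.single_le_sum (f := fun j => if x ∈ A j then (1 : ℝ) else 0)
      (fun i _ => by split_ifs <;> norm_num) (Finset.mem_univ j))
  · exact Finset.sum_nonneg fun i _ => by split_ifs <;> norm_num

/-- transport along an equivalence of the coordinates -/
theorem dn_equiv {ι' : Type} [Finite ι'] (e : ι ≃ ι') (A : Set (ι → Fin k)) :
    dn {x : ι' → Fin k | x ∘ e ∈ A} = dn A := by
  unfold dn
  rw [Nat.card_congr e]
  congr 2
  apply Set.ncard_congr (fun x _ => x ∘ e)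
  · intro x hx; exact hx
  · intro x y _ _ h
    ext j
    have := congrFun h (e.symm j)
    simpa using congrArg Fin.val this
  · intro y hy
    refine ⟨y ∘ e.symm, ?_, ?_⟩
    · show (y ∘ e.symm) ∘ e ∈ A
      have : (y ∘ e.symm) ∘ e = y := by ext j; simp
      rw [this]; exact hy
    · ext j; simp

omit [Finite ι] in
theorem split [Finite ι] (n : ℕ) (h : n ≤ Nat.card ι) :
    ∃ (ι' : Type) (_ : Finite ι'), Nonempty (ι ≃ Fin n ⊕ ι') ∧ Nat.card ι = n + Nat.card ι' := by
  have := Fintype.ofFinite ι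
  refine ⟨Fin (Nat.card ι - n), inferInstance, ⟨?_⟩, ?_⟩
  · exact (Finite.equivFin ι).trans ((finCongr (by omega)).trans finSumFinEquiv.symm)
  · rw [Nat.card_eq_fintype_card (α := Fin (Nat.card ι - n)), Fintype.card_fin]
    omega

/-! ## Lines and subspaces -/

section lines

variable {α η η' κ κ' : Type}

instance finite_line (α ι : Type) [Finite α] [Finite ι] : Finite (Line α ι) :=
  Finite.of_injective (fun l : Line α ι => l.idxFun) fun l l' h => by
    cases l; cases l'; simp at h; subst h; rfl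

instance finite_sub (η α ι : Type) [Finite η] [Finite α] [Finite ι] : Finite (Subspace η α ι) :=
  Finite.of_injective (fun l : Subspace η α ι => l.idxFun) fun l l' h => by
    cases l; cases l'; simp at h; subst h; rfl

theorem card_lines (k n : ℕ) : Nat.card (Line (Fin k) (Fin n)) ≤ (k + 1) ^ n := by
  have h := Nat.card_le_card_of_injective (fun l : Line (Fin k) (Fin n) => l.idxFun) fun l l' h => by
    cases l; cases l'; simp at h; subst h; rfl
  rw [Nat.card_fun] at h
  simpa using h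

theorem LC_apply (U : Subspace η α κ) (l : Line α η) (a : α) : LC U l a = U (l a) := by
  ext i
  rw [Subspace.apply_def, Line.coe_apply]
  show ((U.idxFun i).elim some l.idxFun).getD a = _
  cases U.idxFun i with
  | inl b => rfl
  | inr e => rfl

theorem SC_apply (U : Subspace η α κ) (V : Subspace η' α η) (x : η' → α) : SC U V x = U (V x) := by
  ext i
  rw [Subspace.apply_def, Subspace.apply_def]
  show ((U.idxFun i).elim Sum.inl V.idxFun).elim id x = _
  cases U.idxFun i with
  | inl b => rfl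
  | inr e => rfl

theorem sub_inj (U : Subspace η α κ) {x y : η → α} (h : U x = U y) : x = y := by
  ext e
  obtain ⟨i, hi⟩ := U.proper e
  have := congrFun h i
  rwa [Subspace.apply_inr hi, Subspace.apply_inr hi] at this

theorem line_inj (l : Line α κ) {x y : α} (h : l x = l y) : x = y := by
  obtain ⟨i, hi⟩ := l.proper
  have := congrFun h i
  simpa [hi] using this

/-- subspace times point -/
def SPr (U : Subspace η α κ) (w : κ' → α) : Subspace η α (κ ⊕ κ') where
  idxFun := Sum.elim U.idxFun (fun j => Sum.inl (w j))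
  proper e := by
    obtain ⟨i, hi⟩ := U.proper e
    exact ⟨Sum.inl i, hi⟩

theorem SPr_apply (U : Subspace η α κ) (w : κ' → α) (x : η → α) : SPr U w x = Sum.elim (U x) w := by
  ext i
  cases i with
  | inl i => rfl
  | inr i => rfl

/-- point times subspace -/
def PSr (v : κ → α) (U : Subspace η α κ') : Subspace η α (κ ⊕ κ') where
  idxFun := Sum.elim (fun j => Sum.inl (v j)) U.idxFun
  proper e := by
    obtain ⟨i, hi⟩ := U.proper e
    exact ⟨Sum.inr i, hi⟩

theorem PSr_apply (v : κ → α) (U : Subspace η α κ') (x : η → α) : PSr v U x = Sum.elim v (U x) := by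
  ext i
  cases i with
  | inl i => rfl
  | inr i => rfl

/-- line times subspace -/
def LPS {m : ℕ} (l : Line α κ) (U : Subspace (Fin m) α κ') : Subspace (Fin (m + 1)) α (κ ⊕ κ') where
  idxFun := Sum.elim (fun i => (l.idxFun i).elim (Sum.inr 0) Sum.inl) (fun j => (U.idxFun j).map id Fin.succ)
  proper e := by
    refine Fin.cases ?_ (fun e => ?_) e
    · obtain ⟨i, hi⟩ := l.proper
      exact ⟨Sum.inl i, by simp [hi]⟩
    · obtain ⟨i, hi⟩ := U.proper e
      exact ⟨Sum.inr i, by simp [hi]⟩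

theorem LPS_apply {m : ℕ} (l : Line α κ) (U : Subspace (Fin m) α κ') (x : Fin (m + 1) → α) :
    LPS l U x = Sum.elim (l (x 0)) (U (x ∘ Fin.succ)) := by
  ext i
  cases i with
  | inl i =>
    rw [Subspace.apply_def]
    show ((l.idxFun i).elim (Sum.inr 0) Sum.inl).elim id x = (l.idxFun i).getD (x 0)
    cases l.idxFun i with
    | none => rfl
    | some a => rfl
  | inr i =>
    rw [Subspace.apply_def]
    show ((U.idxFun i).map id Fin.succ).elim id x = (U.idxFun i).elim id (x ∘ Fin.succ)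
    cases U.idxFun i with
    | inl b => rfl
    | inr e => rfl

/-- transport of a line -/
def LE (e : κ ≃ κ') (l : Line α κ') : Line α κ where
  idxFun := l.idxFun ∘ e
  proper := by
    obtain ⟨i, hi⟩ := l.proper
    exact ⟨e.symm i, by simp [hi]⟩

theorem LE_apply (e : κ ≃ κ') (l : Line α κ') (a : α) : LE e l a = l a ∘ e := rfl

/-- transport of a subspace -/
def SE (e : κ ≃ κ') (U : Subspace η α κ') : Subspace η α κ where
  idxFun := U.idxFun ∘ e
  proper j := by
    obtain ⟨i, hi⟩ := U.proper j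
    exact ⟨e.symm i, by simp [hi]⟩

theorem SE_apply (e : κ ≃ κ') (U : Subspace η α κ') (x : η → α) : SE e U x = U x ∘ e := rfl

/-- constants by `castSucc` -/
def SMp {k : ℕ} (U : Subspace η (Fin k) κ) : Subspace η (Fin (k + 1)) κ where
  idxFun i := (U.idxFun i).map Fin.castSucc id
  proper j := by
    obtain ⟨i, hi⟩ := U.proper j
    exact ⟨i, by simp [hi]⟩

theorem SMp_apply {k : ℕ} (U : Subspace η (Fin k) κ) (x : η → Fin k) :
    SMp U (Fin.castSucc ∘ x) = Fin.castSucc ∘ U x := by
  ext i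
  rw [Subspace.apply_def, Function.comp, Subspace.apply_def]
  show (((U.idxFun i).map Fin.castSucc id).elim id (Fin.castSucc ∘ x) : Fin (k + 1)).val = _
  cases U.idxFun i with
  | inl b => rfl
  | inr e => rfl

theorem rep_SMp {k : ℕ} (U : Subspace η (Fin k) κ) (i : Fin k) (y : η → Fin (k + 1)) :
    rep i (SMp U y) = SMp U (rep i y) := by
  ext j
  unfold rep
  rw [Subspace.apply_def, Subspace.apply_def]
  show ((if ((U.idxFun j).map Fin.castSucc id).elim id y = Fin.last k then i.castSucc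
    else ((U.idxFun j).map Fin.castSucc id).elim id y : Fin (k + 1))).val =
    (((U.idxFun j).map Fin.castSucc id).elim id (fun j => if y j = Fin.last k then i.castSucc else y j) : Fin (k + 1)).val
  cases U.idxFun j with
  | inl b =>
    simp only [Sum.map_inl, Sum.elim_inl, id]
    rw [if_neg (Fin.castSucc_lt_last b).ne]
  | inr e => rfl

theorem rep_rep {k : ℕ} (i i' : Fin k) (x : κ → Fin (k + 1)) : rep i (rep i' x) = rep i' x := by
  ext j
  unfold rep
  by_cases h : x j = Fin.last k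
  · simp only [h, if_true]
    rw [if_neg (Fin.castSucc_lt_last i').ne]
  · simp only [h, if_false]

theorem rep_elim {k : ℕ} (i : Fin k) (x : κ → Fin (k + 1)) (w : κ' → Fin (k + 1)) :
    rep i (Sum.elim x w) = Sum.elim (rep i x) (rep i w) := by
  ext j
  cases j with
  | inl j => rfl
  | inr j => rfl

theorem rep_comp {k : ℕ} (i : Fin k) (x : κ' → Fin (k + 1)) (e : κ → κ') : rep i (x ∘ e) = rep i x ∘ e := rfl

/-- `rep i (U x) = rep i (U (rep i x))` for all subspaces -/
theorem rep_sub {k : ℕ} (U : Subspace η (Fin (k + 1)) κ) (i : Fin k) (x : η → Fin (k + 1)) :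
    rep i (U (rep i x)) = rep i (U x) := by
  ext j
  unfold rep
  rw [Subspace.apply_def, Subspace.apply_def]
  cases h : U.idxFun j with
  | inl b => rfl
  | inr e =>
    simp only [Sum.elim_inr]
    by_cases hx : x e = Fin.last k
    · simp only [hx, if_true]
      rw [if_neg (Fin.castSucc_lt_last i).ne]
    · simp only [hx, if_false]

theorem ins_compl {k : ℕ} {i : Fin k} {D : Set (κ → Fin (k + 1))} (h : Ins i D) : Ins i Dᶜ := by
  intro x
  rw [Set.mem_compl_iff, Set.mem_compl_iff, h x]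

theorem ins_inter {k : ℕ} {i : Fin k} {D E : Set (κ → Fin (k + 1))} (h : Ins i D) (h' : Ins i E) : Ins i (D ∩ E) := by
  intro x
  rw [Set.mem_inter_iff, Set.mem_inter_iff, h x, h' x]

theorem ins_univ {k : ℕ} {i : Fin k} : Ins i (Set.univ : Set (κ → Fin (k + 1))) := fun _ => Iff.rfl

theorem ins_preimage {k : ℕ} {i : Fin k} {D : Set (κ → Fin (k + 1))} (h : Ins i D)
    (U : Subspace η (Fin (k + 1)) κ) : Ins i {x | U x ∈ D} := by
  intro x
  show U (rep i x) ∈ D ↔ U x ∈ D
  rw [← h (U (rep i x)), rep_sub, h (U x)]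

theorem ins_equiv {k : ℕ} {i : Fin k} {D : Set (κ → Fin (k + 1))} (h : Ins i D) (e : κ ≃ κ') :
    Ins i {x : κ' → Fin (k + 1) | x ∘ e ∈ D} := by
  intro x
  show rep i x ∘ e ∈ D ↔ x ∘ e ∈ D
  rw [← rep_comp, h]

theorem image_ncard {k : ℕ} (U : Subspace η (Fin k) κ) (B : Set (η → Fin k)) : (U '' B).ncard = B.ncard :=
  Set.ncard_image_of_injective B fun _ _ h => sub_inj U h

end lines

end

end Pool.Agent.Lib.MP_3efbeb_nt.DH
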