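import Pool.Agent.Lib.MP_3efbeb_nt.DH.Base

/-!
# MP_3efbeb_nt, DH, module DHJ (helper66): density Hales-Jewett from STEP
-/

set_option autoImplicit false

namespace Pool.Agent.Lib.MP_3efbeb_nt.DH

open Combinatorics

noncomputable section

theorem DD_mono {k : ℕ} {δ δ' : ℝ} (h : δ ≤ δ') (hD : DD k δ) : DD k δ' := by
  obtain ⟨N, hN⟩ := hD
  exact ⟨N, fun ι _ hι A hA => hN ι hι A (h.trans hA)⟩

theorem DHJ_one : DHJ 1 := by
  intro δ hδ
  refine ⟨1, fun ι _ hι A hA => ?_⟩
  have : Nonempty ι := by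
    by_contra hcon
    rw [not_nonempty_iff] at hcon
    have : Nat.card ι = 0 := Nat.card_of_isEmpty
    omega
  refine ⟨Line.diagonal (Fin 1) ι, fun a => ?_⟩
  have hne : A.Nonempty := by
    by_contra hcon
    rw [Set.not_nonempty_iff_eq_empty] at hcon
    rw [hcon, dn_empty] at hA
    linarith
  obtain ⟨x, hx⟩ := hne
  have hsub : (Line.diagonal (Fin 1) ι) a = x := Subsingleton.elim _ _
  rw [hsub]
  exact hx

theorem specDHJ (hSTEP : SpecSTEP) : SpecDHJ := by
  intro k hk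
  induction k, hk using Nat.le_induction with
  | base => exact DHJ_one
  | succ k hk ih =>
    set S : Set ℝ := {δ | 0 < δ ∧ DD (k + 1) δ} with hS
    have h2 : (2 : ℝ) ∈ S := by
      refine ⟨by norm_num, 0, fun ι _ _ A hA => ?_⟩
      have := dn_le_one A
      linarith
    have hbd : BddBelow S := ⟨0, fun x hx => hx.1.le⟩
    have hinf0 : 0 ≤ sInf S := le_csInf ⟨2, h2⟩ fun x hx => hx.1.le
    have hup : ∀ δ', sInf S < δ' → DD (k + 1) δ' := by
      intro δ' hδ'
      obtain ⟨x, hx, hxδ⟩ := exists_lt_of_csInf_lt ⟨2, h2⟩ hδ'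
      exact DD_mono hxδ.le hx.2
    rcases hinf0.lt_or_eq with hpos | heq
    · obtain ⟨δ', hδ', hDD⟩ := hSTEP k (sInf S) hk ih hpos hup
      set δ'' : ℝ := max δ' (sInf S / 2) with hδ''
      have h3 : δ'' < sInf S := max_lt hδ' (by linarith)
      have h4 : 0 < δ'' := lt_of_lt_of_le (by linarith) (le_max_right _ _)
      have h5 : δ'' ∈ S := ⟨h4, DD_mono (le_max_left _ _) hDD⟩
      exact absurd (csInf_le hbd h5) (not_le.2 h3)
    · intro δ hδ
      exact hup δ (by rw [← heq]; exact hδ)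

end

end Pool.Agent.Lib.MP_3efbeb_nt.DH
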