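import Pool.Agent.Lib.MP_3efbeb_nt.DH.Spec

/-!
# MP_3efbeb_nt, DH, module G (helper15): colourings of words with variables
-/

set_option autoImplicit false

namespace Pool.Agent.Lib.MP_3efbeb_nt.DH

open Combinatorics

namespace GMod

/-- line × subspace -/
def UU {k R n M : ℕ} (w : Subspace (Fin 1) (Fin k) (Fin n)) (U' : Subspace (Fin R) (Fin k) (Fin M)) :
    Subspace (Fin (R + 1)) (Fin k) (Fin (n + M)) where
  idxFun := Fin.append (fun i => (w.idxFun i).elim Sum.inl (fun _ => Sum.inr 0))
    (fun j => (U'.idxFun j).elim Sum.inl (fun e => Sum.inr e.succ))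
  proper := by
    intro e
    refine Fin.cases ?_ (fun e' => ?_) e
    · obtain ⟨i, hi⟩ := w.proper 0
      refine ⟨Fin.castAdd M i, ?_⟩
      rw [Fin.append_left, hi]
      rfl
    · obtain ⟨i, hi⟩ := U'.proper e'
      refine ⟨Fin.natAdd n i, ?_⟩
      rw [Fin.append_right, hi]
      rfl

lemma ap_UU {k R n M : ℕ} (w : Subspace (Fin 1) (Fin k) (Fin n)) (U' : Subspace (Fin R) (Fin k) (Fin M))
    (y : Fin (R + 1) → Option (Fin k)) :
    ap (UU w U') y = Fin.append (ap w (fun _ => y 0)) (ap U' (fun j => y j.succ)) := by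
  funext i
  refine Fin.addCases (fun i => ?_) (fun i => ?_) i
  · rw [Fin.append_left]
    unfold ap UU
    simp only [Fin.append_left]
    cases w.idxFun i <;> rfl
  · rw [Fin.append_right]
    unfold ap UU
    simp only [Fin.append_right]
    cases U'.idxFun i <;> rfl

lemma ap_some {k n : ℕ} {η : Type} (w : Subspace η (Fin k) (Fin n)) (x : η → Fin k) :
    ap w (fun j => some (x j)) = fun i => some (w x i) := by
  funext i
  unfold ap
  rw [Subspace.apply_def]
  cases w.idxFun i <;> rfl

end GMod

open GMod in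
/-- Module G. -/
theorem specG : SpecG := by
  intro k R
  induction R with
  | zero =>
    intro κ _ _
    refine ⟨0, fun c => ⟨⟨fun i => i.elim0, fun e => e.elim0⟩, fun y y' _ => ?_⟩⟩
    congr 1
    funext i
    exact i.elim0
  | succ R ih =>
    intro κ _ hk
    obtain ⟨M, hM⟩ := ih (κ × κ) hk
    obtain ⟨n, hn⟩ := Subspace.exists_mono_in_high_dimension_fin (Fin k)
      ((Fin M → Option (Fin k)) → κ) (Fin 1)
    refine ⟨n + M, fun c => ?_⟩
    obtain ⟨w, hw⟩ := hn (fun x s => c (Fin.append (fun i => some (x i)) s))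
    obtain ⟨D, hD⟩ := hw
    obtain ⟨U', hU'⟩ := hM (fun s => (D s, c (Fin.append (ap w (fun _ => none)) s)))
    refine ⟨UU w U', fun y y' hy => ?_⟩
    rw [ap_UU, ap_UU]
    have h1 := hU' (fun j => y j.succ) (fun j => y' j.succ) (fun j => hy j.succ)
    have h2 := congrArg Prod.fst h1
    have h3 := congrArg Prod.snd h1
    simp only at h2 h3
    have h0 := hy 0
    cases hy0 : y 0 with
    | none =>
      have hy0' : y' 0 = none := h0.1 hy0
      rw [hy0']
      exact h3
    | some a =>
      cases hy0' : y' 0 with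
      | none =>
        rw [h0.2 hy0'] at hy0
        exact absurd hy0 (by simp)
      | some a' =>
        have e : ∀ b : Fin k, ∀ s, c (Fin.append (ap w (fun _ => some b)) s) = D s := by
          intro b s
          have e1 := congrFun (hD (fun _ => b)) s
          rw [ap_some w (fun _ => b)]
          exact e1
        rw [e, e]
        exact h2

end Pool.Agent.Lib.MP_3efbeb_nt.DH
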