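import Mathlib

/-!
# MP_3efbeb_nt, DH: density Hales-Jewett and Szemeredi's theorem (Specs, helper66)

Alphabet `Fin k`; the last letter of `Fin (k+1)` is `Fin.last k`, the others are `i.castSucc`, `i : Fin k`.
Cubes are `ι → Fin k`, `ι` any finite type. Lines and subspaces are Mathlib's `Combinatorics.Line`, `Combinatorics.Subspace`.
Sets are `Set`, cardinalities `Set.ncard`, `Nat.card`: no decidability and no `Fintype` instance in any statement.
Lemmas on `dn`, `av` and the operations on subspaces are in `DH/Base.lean`.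

Modules: G, FU, GR (G, FU), MD, INS (MD), PT (INS), PTI (PT), PAV, ONEW (PTI, PAV), GOOD (GR), STEP (GOOD, ONEW),
DHJ (STEP), SZ (DHJ), MAIN3.
-/

set_option autoImplicit false

namespace Pool.Agent.Lib.MP_3efbeb_nt.DH

open Combinatorics

noncomputable section

/-! ## Definitions -/

/-- density of a subset of the cube -/
def dn {k : ℕ} {ι : Type} [Finite ι] (A : Set (ι → Fin k)) : ℝ := (A.ncard : ℝ) / (k : ℝ) ^ Nat.card ι

/-- average of a function on the cube -/
def av {k : ℕ} {ι : Type} [Finite ι] (f : (ι → Fin k) → ℝ) : ℝ := (∑ᶠ x, f x) / (k : ℝ) ^ Nat.card ι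

/-- every set of density `≥ δ` in a cube of high dimension contains a combinatorial line -/
def DD (k : ℕ) (δ : ℝ) : Prop := ∃ N : ℕ, ∀ (ι : Type) [Finite ι], N ≤ Nat.card ι →
  ∀ A : Set (ι → Fin k), δ ≤ dn A → ∃ l : Line (Fin k) ι, ∀ a, l a ∈ A

/-- density Hales-Jewett for the alphabet `Fin k` -/
def DHJ (k : ℕ) : Prop := ∀ δ : ℝ, 0 < δ → DD k δ

/-- replace the last letter by `i` -/
def rep {k : ℕ} {ι : Type} (i : Fin k) (x : ι → Fin (k + 1)) : ι → Fin (k + 1) :=
  fun j => if x j = Fin.last k then i.castSucc else x j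

/-- `D` is insensitive to changes between `i` and the last letter -/
def Ins {k : ℕ} {ι : Type} (i : Fin k) (D : Set (ι → Fin (k + 1))) : Prop := ∀ x, rep i x ∈ D ↔ x ∈ D

/-- `D` is a disjoint union of `m`-dimensional subspaces and a set of density `≤ β` -/
def Part {k : ℕ} {ι : Type} [Finite ι] (m : ℕ) (β : ℝ) (D : Set (ι → Fin k)) : Prop :=
  ∃ (J : Type) (_ : Finite J) (U : J → Subspace (Fin m) (Fin k) ι),
    (∀ j x, U j x ∈ D) ∧ (∀ j j' x x', U j x = U j' x' → j = j') ∧ dn {y | y ∈ D ∧ ∀ j x, U j x ≠ y} ≤ β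

/-- a word with variables, substituted into a subspace -/
def ap {k : ℕ} {η ι : Type} (U : Subspace η (Fin k) ι) (y : η → Option (Fin k)) : ι → Option (Fin k) :=
  fun i => (U.idxFun i).elim some y

/-- a line inside a subspace -/
def LC {α η ι : Type} (U : Subspace η α ι) (l : Line α η) : Line α ι where
  idxFun i := (U.idxFun i).elim some l.idxFun
  proper := by
    obtain ⟨j, hj⟩ := l.proper
    obtain ⟨i, hi⟩ := U.proper j
    exact ⟨i, by rw [hi]; exact hj⟩

/-- a subspace inside a subspace -/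
def SC {α η η' ι : Type} (U : Subspace η α ι) (V : Subspace η' α η) : Subspace η' α ι where
  idxFun i := (U.idxFun i).elim Sum.inl V.idxFun
  proper e := by
    obtain ⟨j, hj⟩ := V.proper e
    obtain ⟨i, hi⟩ := U.proper j
    exact ⟨i, by rw [hi]; exact hj⟩

/-! ## G, FU, GR: Graham-Rothschild for lines -/

/-- G (only from Mathlib's Hales-Jewett). A colouring of the words with variables (`none` = variable): on a subspace it
depends only on the set of the variable places.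
Induction on `R` (for all `κ`). `R = 0`: `M = 0`. `R+1`: `M'` from the case `R` with `κ × κ`; `n` from Hales-Jewett
(`Subspace.exists_mono_in_high_dimension_fin` with dimension `Fin 1`) for the alphabet `Fin k` and the colours
`(Fin M' → Option (Fin k)) → κ`; `M = n + M'`. The colouring `x ↦ (s ↦ c (some ∘ x, s))` has a monochromatic line `w`:
`c (some ∘ w a, s)` does not depend on `a : Fin k`. Take the case `R` for `s ↦ (c (some ∘ w a0, s), c (w none, s))`. -/
def SpecG : Prop := ∀ (k R : ℕ) (κ : Type) [Finite κ], 1 ≤ k → ∃ M : ℕ, ∀ c : (Fin M → Option (Fin k)) → κ,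
  ∃ U : Subspace (Fin R) (Fin k) (Fin M), ∀ y y' : Fin R → Option (Fin k), (∀ j, y j = none ↔ y' j = none) →
    c (ap U y) = c (ap U y')

/-- FU (only from Mathlib's Hales-Jewett): finite unions. `f j = some i` means: `j` is in the `i`-th set `T_i`.
First: for all `m`, `κ` there is `R` such that every `c : Set (Fin R) → κ` has disjoint nonempty `T_i`, `i < m`, with
`c (⋃ i ∈ I, T_i)` depending only on the least element of `I` (`I` nonempty). Induction on `m` (for all `R`):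
`R_(m+1) = 1 + L`, `L` from `Subspace.exists_mono_in_high_dimension_fin Bool κ (Fin R_m)`, for the colouring
`X ↦ c ({0} ∪ (X+1))`: a base set `B` and `S_j`, `j < R_m`, with `c ({0} ∪ B ∪ ⋃ j ∈ J, S_j)` constant for all `J` (`J` empty
allowed); the case `m` for `J ↦ c (⋃ j ∈ J, S_j)` gives `T'_i`; take `T_0 = {0} ∪ B`, `T_(i+1) = ⋃ j ∈ T'_i, S_j`.
Then with `m' = (Nat.card κ) * m + 1` in place of `m` choose `m` of the `T_i` with one colour (pigeonhole). -/
def SpecFU : Prop := ∀ (m : ℕ) (κ : Type) [Finite κ], ∃ R : ℕ, ∀ c : Set (Fin R) → κ,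
  ∃ f : Fin R → Option (Fin m), (∀ i, ∃ j, f j = some i) ∧ ∀ I I' : Set (Fin m), I.Nonempty → I'.Nonempty →
    c {j | ∃ i ∈ I, f j = some i} = c {j | ∃ i ∈ I', f j = some i}

/-- GR (from G, FU). `R` from FU `m κ`, `M` from G `k R (Option κ)`, for the colouring `w ↦ some (c w)` if `w` has a variable,
`none` otherwise: a subspace `U`. FU for `T ↦` the colour of `ap U y`, `y = none` on `T` and `some 0` off `T`, gives `f`;
`V.idxFun j = inr i` if `f j = some i`, `inl 0` if `f j = none`. Take `SC U V`. -/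
def SpecGR : Prop := ∀ (k m : ℕ) (κ : Type) [Finite κ], 1 ≤ k → ∃ M : ℕ, ∀ c : Line (Fin k) (Fin M) → κ,
  ∃ U : Subspace (Fin m) (Fin k) (Fin M), ∀ l l' : Line (Fin k) (Fin m), c (LC U l) = c (LC U l')

/-! ## MD, INS, PT, PTI -/

/-- MD: dense sets contain subspaces. Induction on `m` (for all `δ`). `m = 0`: a point. `m+1`: `n` from DD `k (δ/2)`,
`N'` from the case `m` with `(δ/2)/(k+1)^n`, `N = n + N'`; `ι ≃ Fin n ⊕ ι'`. The set `W` of `w : ι' → Fin k` with
`δ/2 ≤ dn {x | (x,w) ∈ A}` has density `≥ δ/2` (Markov); for `w ∈ W` a line `l_w` in this set; there are at most `(k+1)^n`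
lines, so for some line `l` the set of `w ∈ W` with `l_w = l` has density `≥ (δ/2)/(k+1)^n` and contains an
`m`-dimensional subspace `V`. Take `l × V`. -/
def SpecMD : Prop := ∀ k m : ℕ, 1 ≤ k → DHJ k → ∀ δ : ℝ, 0 < δ → ∃ N : ℕ, ∀ (ι : Type) [Finite ι], N ≤ Nat.card ι →
  ∀ A : Set (ι → Fin k), δ ≤ dn A → ∃ U : Subspace (Fin m) (Fin k) ι, ∀ x, U x ∈ A

/-- INS (from MD): dense insensitive sets contain subspaces. `N'` from MD with `β/2`. For `F ⊆ ι` let `D_F` be the set of the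
`x : F → Fin k` such that (`x` on `F`, `i` off `F`) is in `D`. As `D` is insensitive, `x ↦ (F, x|F)`,
`F = {j | x j ≠ last}`, is a bijection of `D` and the disjoint union of the `D_F`. So `∑_F |D_F| = |D| ≥ β (k+1)^n`,
`n = |ι|`, `∑_F k^|F| = (k+1)^n`, and the `F` with `|F| < N'` contribute at most `(β/2)(k+1)^n` for large `n`
(at most `N' n^N' k^N'`). So some `F` with `|F| ≥ N'` has `|D_F| ≥ (β/2) k^|F|`; MD in `F → Fin k` gives a subspace in `D_F`;
add the letter `i` off `F`: by the insensitivity this subspace over `Fin (k+1)` is in `D`. -/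
def SpecINS : Prop := ∀ k m : ℕ, 1 ≤ k → DHJ k → ∀ β : ℝ, 0 < β → ∃ N : ℕ, ∀ (ι : Type) [Finite ι], N ≤ Nat.card ι →
  ∀ (i : Fin k) (D : Set (ι → Fin (k + 1))), Ins i D → β ≤ dn D → ∃ U : Subspace (Fin m) (Fin (k + 1)) ι, ∀ x, U x ∈ D

/-- PT (from INS): insensitive sets are disjoint unions of subspaces up to `β`. `M` from INS with `β/2`, `K = k+1`,
`q = 1 - K^(-M)`. Induction on `r`: for `|ι| ≥ r M` and `Ins i D` there is a family (as in `Part`) with remainder of density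
`≤ (β/2)(1 - q^r) + q^r dn D`. `r = 0`: the empty family. `r+1`: `ι ≃ Fin M ⊕ ι'`. For `w : ι' → Fin K` let
`D_w = {x | (x,w) ∈ D}` (insensitive, and `D_w = D_(rep i w)`); for `dn D_w ≥ β/2` choose a subspace `V_w = Φ(D_w)` in `D_w`,
a function of the set `D_w` alone. For `x : Fin M → Fin K` the set `D'_x = {w | (x,w) ∈ D, not (dn D_w ≥ β/2 and x ∈ V_w)}`
is insensitive: the case `r` for it gives subspaces `U_(x,j)`. The family: `V_w × {w}` for the good `w`, and
`{x} × U_(x,j)`. Let `g` be the density of the good `w`: `dn D ≤ g + β/2`, the average of `dn D'_x` is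
`≤ dn D - g K^(-M) ≤ q dn D + (1-q) β/2`. At the end `q^r ≤ β/2`. -/
def SpecPT : Prop := ∀ k m : ℕ, 1 ≤ k → DHJ k → ∀ β : ℝ, 0 < β → ∃ N : ℕ, ∀ (ι : Type) [Finite ι], N ≤ Nat.card ι →
  ∀ (i : Fin k) (D : Set (ι → Fin (k + 1))), Ins i D → Part m β D

/-- PTI (from PT): the same for intersections of `r` insensitive sets (different letters). Induction on `r` (for all `β`).
`r = 0`: PT for `univ`. `r+1`: `m1` from the case `r` with `m`, `β/2`; PT with `m1`, `β/2` for the last set: subspaces `U_j`;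
in each the case `r` for the preimages `{x : Fin m1 → _ | U_j x ∈ D t}` (insensitive) gives `V_(j,i)`; take
`SC (U_j) (V_(j,i))`; remainder `≤ β/2 + β/2`, as the `U_j` are disjoint and have `(k+1)^m1` elements. -/
def SpecPTI : Prop := ∀ k m r : ℕ, 1 ≤ k → DHJ k → ∀ β : ℝ, 0 < β → ∃ N : ℕ, ∀ (ι : Type) [Finite ι], N ≤ Nat.card ι →
  ∀ (s : Fin r → Fin k) (D : Fin r → Set (ι → Fin (k + 1))), (∀ t, Ins (s t) (D t)) → Part m β (⋂ t, D t)

/-- PAV: if `A` has density `≤ θ` in every `m`-dimensional subspace then `dn (A ∩ P) ≤ θ dn P + β`. -/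
def SpecPAV : Prop := ∀ (k m : ℕ) (β θ : ℝ) (ι : Type) [Finite ι] (P A : Set (ι → Fin k)), 1 ≤ k → 0 ≤ θ → Part m β P →
  (∀ U : Subspace (Fin m) (Fin k) ι, dn {x | U x ∈ A} ≤ θ) → dn (A ∩ P) ≤ θ * dn P + β

/-- ONEW (from PTI, PAV). `m'` from DD `(k+1) θ`. `D_i = {y | rep i y ∈ B}` is `(i, last)`-insensitive, as is its complement
(`rep i (rep i y) = rep i y`). `D = ⋂ D_i`. If `y ∈ B ∩ D` has the last letter at some place then the line
`a ↦ y` with the last letters replaced by `a` is in `B`: contradiction. So `B ∩ D` is in the set of the words without the last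
letter, density `(k/(k+1))^m ≤ β` for large `m`. The complement of `D` is the disjoint union of the
`P_i = D_0 ∩ ... ∩ D_(i-1) ∩ D_i^c`, `i < k`: PTI with `r = k`, `s t = t` and the sets `D_t` (`t < i`), `D_i^c` (`t = i`),
`univ` (`t > i`); PAV with `m'`, `θ` (in an `m'`-dimensional subspace `B` is line-free). Sum over `i`. -/
def SpecONEW : Prop := ∀ (k : ℕ) (β θ : ℝ), 1 ≤ k → DHJ k → 0 < β → 0 ≤ θ → DD (k + 1) θ → ∃ m0 : ℕ, ∀ m : ℕ, m0 ≤ m →
  ∀ B : Set (Fin m → Fin (k + 1)), (¬ ∃ l : Line (Fin (k + 1)) (Fin m), ∀ a, l a ∈ B) →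
    dn B ≤ (k + 1) * β + θ * (1 - dn {y : Fin m → Fin (k + 1) | ∀ i : Fin k, rep i y ∈ B})

/-! ## GOOD, STEP, DHJ -/

/-- GOOD (from GR). `m0` from DD `k (δ/2)`, `η = (δ/2)/(k+1)^m0`, `M` from GR `k m Prop` for the colouring: `l` is good if
`η ≤ dn {w | ∀ a : Fin k, (castSucc ∘ l a, w) ∈ A}`: a subspace `U0` over `Fin k`. For `x : Fin m0 → Fin k` let `ext x` be `x`
on the first `m0` places and `0` on the others. The set `W` of the `w` with
`δ/2 ≤ dn {x | (castSucc ∘ U0 (ext x), w) ∈ A}` has density `≥ δ/2` (Markov, `av_swap`); for `w ∈ W` a line `l_w` in this set;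
one line `l` occurs for a set of `w` of density `≥ (δ/2)/(k+1)^m0 = η`, so `LC U0 (ext l)` is good; so all the `LC U0 l'` are
good. `U` is `U0` with the letters `castSucc`; for `y` with the last letter somewhere let `l_y` be the line over `Fin k`
with variable places `{j | y j = last}`: `U (rep i y) = castSucc ∘ U0 (l_y i)`. -/
def SpecGOOD : Prop := ∀ (k : ℕ) (δ : ℝ), 1 ≤ k → DHJ k → 0 < δ → ∃ (η : ℝ) (m0 : ℕ), 0 < η ∧ η ≤ 1 ∧ ∀ m : ℕ, m0 ≤ m →
  ∃ M : ℕ, ∀ (ι : Type) [Finite ι] (A : Set (Fin M ⊕ ι → Fin (k + 1))),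
    (∀ x : Fin M → Fin (k + 1), δ ≤ dn {w : ι → Fin (k + 1) | Sum.elim x w ∈ A}) →
    ∃ U : Subspace (Fin m) (Fin (k + 1)) (Fin M), ∀ y : Fin m → Fin (k + 1), (∃ j, y j = Fin.last k) →
      η ≤ dn {w : ι → Fin (k + 1) | ∀ i : Fin k, Sum.elim (U (rep i y)) w ∈ A}

/-- STEP (from GOOD, ONEW). If `δ > 1` take `δ' = (1+δ)/2` (vacuous). Let `δ ≤ 1`; `η, m1` from GOOD with `δ/2`,
`θ = δ + δ η / 2`, `β = δ η / (4 (k+4))` (so `β ≤ δ/2`), `m ≥ m1`, `m ≥ m0` from ONEW `k β θ`, `(k/(k+1))^m ≤ β`, `M` from GOOD,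
`ε = β / (2 (k+1)^M)`, `N2` from DD `(k+1) (δ + ε)`, `δ' = δ - ε`, `N = M + N2`. Let `A` be line-free, `ι ≃ Fin M ⊕ ι'`,
`dn A ≥ δ - ε`. The sections `A_x = {w | (x,w) ∈ A}` are line-free, so `dn A_x < δ + ε`; as the average is `≥ δ - ε`,
`dn A_x ≥ δ + ε - 2 (k+1)^M ε ≥ δ - β` for all `x`. GOOD gives `U`; for `w` let `B_w = {y | (U y, w) ∈ A}` (line-free) and
`D_w = {y | ∀ i, rep i y ∈ B_w}`; ONEW: `dn B_w ≤ (k+1) β + θ (1 - dn D_w)`. Averages over `w` (`av_swap`):
`av (dn B_w) = av_y (dn A_(U y)) ≥ δ - β`, `av (dn D_w) = av_y (dn {w | y ∈ D_w}) ≥ η (1 - β) ≥ η - β`.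
So `δ - β ≤ (k+1) β + (δ + δ η/2)(1 - η + β) ≤ (k+1) β + δ - δ η/2 + 2 β`, that is `δ η / 2 ≤ (k+4) β`: contradiction. -/
def SpecSTEP : Prop := ∀ (k : ℕ) (δ : ℝ), 1 ≤ k → DHJ k → 0 < δ → (∀ δ' : ℝ, δ < δ' → DD (k + 1) δ') →
  ∃ δ' : ℝ, δ' < δ ∧ DD (k + 1) δ'

/-- DHJ (from STEP): induction on `k`; `k = 1`: `A` is not empty, so it is everything, `N = 1`. Step: the infimum `δ*` of the
`δ > 0` with DD `(k+1) δ` (2 is one, DD is monotone in `δ`) is `0`: otherwise STEP gives a smaller one. -/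
def SpecDHJ : Prop := ∀ k : ℕ, 1 ≤ k → DHJ k

/-! ## SZ: Szemeredi's theorem for finite patterns -/

/-- SZ (from DHJ). `H ⊆ range k`, `1 ≤ k`; `N` from DD `k (δ/2)` (`ι = Fin N`), `L ≥ 2 k N / δ`, `L > k N`. For
`x : Fin N → Fin k` at least `|A| - k N` of the `u ∈ [0, L - k N)` have `u + ∑ x_j ∈ A`. So for some `u` the set of the
`x` with `u + ∑ x_j ∈ A` has density `≥ (δ L - k N)/(L - k N) ≥ δ/2`; a line `l` in it: `u + ∑ (l a)_j = t + a e`,
`e` the number of the variable places. -/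
def SpecSZ : Prop := ∀ (δ : ℝ) (H : Finset ℕ), 0 < δ → ∃ L0 : ℕ, ∀ L : ℕ, L0 ≤ L →
  ∀ A : Finset ℕ, A ⊆ Finset.range L → δ * L ≤ A.card → ∃ t e : ℕ, 1 ≤ e ∧ ∀ h ∈ H, t + e * h ∈ A

end

end Pool.Agent.Lib.MP_3efbeb_nt.DH
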